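import Pool.Agent.V11208.VM.B

/-! The kernels attached to a basis of `ℝ^m` indexed by monomials. -/

open Finset Matrix Filter Topology

namespace Pool.Agent.V11208.VM

open Pool.Agent.Y520.Mat

variable {ι : Type} {n d : ι → ℕ} {m : ℕ}

/-- Let the monomials of degree `d i` in `n i` variables, `i ∈ ι`, index a basis `b` of `ℝ^m`. To a
vector `v` in `ℝ^(n i)` this attaches `∑ k, v^k • b (i, k)`, the `d i`-th power of `v`. -/
noncomputable def power (b : Module.Basis (Σ i, Idx (n i) (d i)) ℝ (Fin m → ℝ)) (i : ι)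
    (v : Fin (n i) → ℝ) : Fin m → ℝ :=
  ∑ k : Idx (n i) (d i), (∏ j, v j ^ k.1 j) • b ⟨i, k⟩

theorem coeff_toPoly {n d : ℕ} (a : Idx n d → ℝ) (k : Idx n d) :
    (toPoly a).coeff (Finsupp.equivFunOnFinite.symm k.1) = a k := by
  classical
  unfold toPoly
  rw [MvPolynomial.coeff_sum]
  simp only [MvPolynomial.coeff_monomial]
  rw [Finset.sum_eq_single k]
  · simp
  · intro l _ hl
    rw [if_neg]
    intro h
    apply hl
    apply Subtype.ext
    have h2 := congrArg (fun f : Fin n →₀ ℕ => (f : Fin n → ℕ)) h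
    simpa using h2
  · intro h
    exact absurd (Finset.mem_univ _) h

theorem coeff_eq_zero {n d : ℕ} (a : Idx n d → ℝ) (h : ∀ v, form a v = 0) (k : Idx n d) :
    a k = 0 := by
  have h1 : toPoly a = 0 := by
    apply MvPolynomial.funext
    intro v
    rw [eval_toPoly, h, map_zero]
  rw [← coeff_toPoly a k, h1, MvPolynomial.coeff_zero]

theorem power_dot (b : Module.Basis (Σ i, Idx (n i) (d i)) ℝ (Fin m → ℝ)) (i : ι)
    (v : Fin (n i) → ℝ) (a : Fin m → ℝ) :
    power b i v ⬝ᵥ a = form (fun k => b ⟨i, k⟩ ⬝ᵥ a) v := by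
  unfold power form
  rw [sum_dotProduct]
  refine Finset.sum_congr rfl fun k _ => ?_
  rw [smul_dotProduct, smul_eq_mul, mul_comm]

theorem basis_dot_inj {κ : Type} (b : Module.Basis κ ℝ (Fin m → ℝ)) (a : Fin m → ℝ)
    (h : ∀ p, b p ⬝ᵥ a = 0) : a = 0 := by
  have h1 : (dotProductBilin ℝ ℝ).flip a = (0 : (Fin m → ℝ) →ₗ[ℝ] ℝ) := by
    apply b.ext
    intro p
    simpa using h p
  have h2 : a ⬝ᵥ a = 0 := by
    have := congrArg (fun f : (Fin m → ℝ) →ₗ[ℝ] ℝ => f a) h1
    simpa using this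
  exact dotProduct_self_eq_zero.1 h2

theorem basis_dot_surj {κ : Type} (b : Module.Basis κ ℝ (Fin m → ℝ)) (c : κ → ℝ) :
    ∃ a : Fin m → ℝ, ∀ p, b p ⬝ᵥ a = c p := by
  refine ⟨fun r => b.constr ℝ c (Pi.single r 1), fun p => ?_⟩
  have h1 : b.constr ℝ c (b p) = c p := b.constr_basis ℝ c p
  rw [← h1]
  conv_rhs => rw [pi_eq_sum_univ' (b p)]
  rw [map_sum]
  unfold dotProduct
  refine Finset.sum_congr rfl fun r _ => ?_
  rw [map_smul, smul_eq_mul]

/-- the weights -/
noncomputable def wt (p : Σ i, Idx (n i) (d i)) : ℝ :=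
  (Nat.multinomial Finset.univ p.2.1 : ℕ)

theorem wt_pos (p : Σ i, Idx (n i) (d i)) : 0 < wt p := by
  unfold wt
  exact_mod_cast Nat.multinomial_pos _ _

section

variable [Fintype ι]

/-- the coordinate matrix -/
noncomputable def RR (b : Module.Basis (Σ i, Idx (n i) (d i)) ℝ (Fin m → ℝ)) :
    Matrix (Σ i, Idx (n i) (d i)) (Fin m) ℝ :=
  Matrix.of fun p r => b.repr (Pi.single r 1) p

/-- the inner product -/
noncomputable def NN [DecidableEq ι] (b : Module.Basis (Σ i, Idx (n i) (d i)) ℝ (Fin m → ℝ)) : Mt m :=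
  (RR b)ᵀ * (Matrix.diagonal (wt (n := n) (d := d)) * RR b)

theorem RR_mulVec (b : Module.Basis (Σ i, Idx (n i) (d i)) ℝ (Fin m → ℝ)) (x : Fin m → ℝ) :
    RR b *ᵥ x = b.repr x := by
  ext p
  conv_rhs => rw [pi_eq_sum_univ' x, map_sum, Finsupp.finsetSum_apply]
  show ∑ r, RR b p r * x r = _
  refine Finset.sum_congr rfl fun r _ => ?_
  rw [map_smul, Finsupp.smul_apply, smul_eq_mul, mul_comm]
  rfl

theorem NN_form [DecidableEq ι] (b : Module.Basis (Σ i, Idx (n i) (d i)) ℝ (Fin m → ℝ))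
    (x y : Fin m → ℝ) :
    x ⬝ᵥ NN b *ᵥ y = ∑ p, b.repr x p * (wt p * b.repr y p) := by
  unfold NN
  rw [← mulVec_mulVec, ← mulVec_mulVec, RR_mulVec, dotProduct_transpose_mulVec, RR_mulVec,
    dotProduct_comm]
  refine Finset.sum_congr rfl fun p _ => ?_
  rw [mulVec_diagonal]

theorem repr_power [DecidableEq ι] (b : Module.Basis (Σ i, Idx (n i) (d i)) ℝ (Fin m → ℝ)) (i : ι)
    (v : Fin (n i) → ℝ) (p : Σ i, Idx (n i) (d i)) :
    b.repr (power b i v) p = ∑ k : Idx (n i) (d i), if (⟨i, k⟩ : Σ i, Idx (n i) (d i)) = p then ∏ j, v j ^ k.1 j else 0 := by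
  unfold power
  rw [map_sum, Finsupp.finsetSum_apply]
  refine Finset.sum_congr rfl fun k _ => ?_
  rw [map_smul, Finsupp.smul_apply, smul_eq_mul, Module.Basis.repr_self, Finsupp.single_apply]
  split_ifs <;> simp

theorem sum_repr_power [DecidableEq ι] (b : Module.Basis (Σ i, Idx (n i) (d i)) ℝ (Fin m → ℝ)) (i : ι)
    (v : Fin (n i) → ℝ) (f : (Σ i, Idx (n i) (d i)) → ℝ) :
    ∑ p, b.repr (power b i v) p * f p = ∑ k : Idx (n i) (d i), (∏ j, v j ^ k.1 j) * f ⟨i, k⟩ := by
  simp_rw [repr_power, Finset.sum_mul]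
  rw [Finset.sum_comm]
  refine Finset.sum_congr rfl fun k _ => ?_
  rw [Finset.sum_eq_single (⟨i, k⟩ : Σ i, Idx (n i) (d i))]
  · simp
  · intro p _ hp
    rw [if_neg (fun h => hp h.symm), zero_mul]
  · intro h
    exact absurd (Finset.mem_univ _) h

theorem ker_power [DecidableEq ι] (b : Module.Basis (Σ i, Idx (n i) (d i)) ℝ (Fin m → ℝ)) :
    Ker n d m (power b) (NN b) where
  pos := by
    apply PosDef.of_dotProduct_mulVec_pos
    · rw [IsHermitian, conjTranspose_eq_transpose_of_trivial]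
      unfold NN
      rw [transpose_mul, transpose_mul, transpose_transpose, diagonal_transpose, Matrix.mul_assoc]
    · intro x hx
      rw [star_trivial, NN_form]
      have h1 : ∃ p, b.repr x p ≠ 0 := by
        by_contra hno
        push Not at hno
        apply hx
        rw [← b.sum_repr x]
        apply Finset.sum_eq_zero
        intro p _
        rw [hno, zero_smul]
      obtain ⟨p, hp⟩ := h1
      have h2 : ∀ q, b.repr x q * (wt q * b.repr x q) = wt q * (b.repr x q) ^ 2 := fun q => by ring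
      simp_rw [h2]
      apply Finset.sum_pos'
      · intro q _
        exact mul_nonneg (wt_pos q).le (sq_nonneg _)
      · exact ⟨p, Finset.mem_univ _, mul_pos (wt_pos p) (by positivity)⟩
  k1 := by
    intro i v w
    rw [NN_form, sum_repr_power]
    have h1 : ∀ k : Idx (n i) (d i), b.repr (power b i w) ⟨i, k⟩ = ∏ j, w j ^ k.1 j := by
      intro k
      rw [repr_power, Finset.sum_eq_single k]
      · simp
      · intro l _ hl
        rw [if_neg]
        intro h
        apply hl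
        simpa using h
      · intro h
        exact absurd (Finset.mem_univ _) h
    simp_rw [h1]
    have h2 := Finset.sum_pow_eq_sum_piAntidiag (Finset.univ : Finset (Fin (n i)))
      (fun j => v j * w j) (d i)
    have h3 : v ⬝ᵥ w = ∑ j, v j * w j := rfl
    rw [h3, h2, ← Finset.sum_coe_sort (Finset.piAntidiag (Finset.univ : Finset (Fin (n i))) (d i))]
    refine Finset.sum_congr rfl fun k _ => ?_
    unfold wt
    simp_rw [mul_pow]
    rw [Finset.prod_mul_distrib]
    ring
  k2 := by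
    intro i j hij v w
    rw [NN_form, sum_repr_power]
    apply Finset.sum_eq_zero
    intro k _
    have h1 : b.repr (power b j w) ⟨i, k⟩ = 0 := by
      rw [repr_power]
      apply Finset.sum_eq_zero
      intro l _
      rw [if_neg]
      intro h
      exact hij (congrArg Sigma.fst h).symm
    rw [h1]
    ring
  span := by
    intro a ha
    apply basis_dot_inj b
    rintro ⟨i, k⟩
    exact coeff_eq_zero (fun k => b ⟨i, k⟩ ⬝ᵥ a) (fun v => by rw [← power_dot]; exact ha i v) k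
  cont := by
    intro i
    unfold power
    apply continuous_finsetSum
    intro k _
    have h1 : Continuous fun a : Fin (n i) → ℝ => ∏ j, a j ^ k.1 j :=
      continuous_finsetProd _ fun j _ => (continuous_apply j).pow _
    exact h1.smul continuous_const

end

/-- the linear form `a ↦ b p · a` -/
noncomputable def lf {κ : Type} (b : Module.Basis κ ℝ (Fin m → ℝ)) (p : κ) :
    MvPolynomial (Fin m) ℝ := ∑ r, MvPolynomial.C (b p r) * MvPolynomial.X r

theorem eval_lf {κ : Type} (b : Module.Basis κ ℝ (Fin m → ℝ)) (p : κ) (a : Fin m → ℝ) :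
    MvPolynomial.eval a (lf b p) = b p ⬝ᵥ a := by
  classical
  unfold lf dotProduct
  rw [map_sum]
  simp

theorem exists_generic [Fintype ι] (b : Module.Basis (Σ i, Idx (n i) (d i)) ℝ (Fin m → ℝ))
    (hn : ∀ i, 0 < n i) (hd : ∀ i, 0 < d i) :
    ∃ F : MvPolynomial (Fin m) ℝ, F ≠ 0 ∧ ∀ a : Fin m → ℝ, MvPolynomial.eval a F ≠ 0 →
      ∀ i, ∀ u : Fin (n i) → ℝ, u ≠ 0 → ∃ j, MvPolynomial.eval u
        (MvPolynomial.pderiv j (toPoly fun k => b ⟨i, k⟩ ⬝ᵥ a)) ≠ 0 := by
  classical
  have h1 : ∀ i, ∃ F : MvPolynomial (Idx (n i) (d i)) ℝ, F ≠ 0 ∧ ∀ a,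
      (∃ u ≠ 0, ∀ j, MvPolynomial.eval u (MvPolynomial.pderiv j (toPoly a)) = 0) →
      MvPolynomial.eval a F = 0 := fun i => exists_disc (hd i)
  choose F hF0 hF using h1
  have hev : ∀ i (a : Fin m → ℝ), MvPolynomial.eval a
      (MvPolynomial.bind₁ (fun k => lf b ⟨i, k⟩) (F i)) =
      MvPolynomial.eval (fun k => b ⟨i, k⟩ ⬝ᵥ a) (F i) := by
    intro i a
    have := MvPolynomial.eval₂Hom_bind₁ (RingHom.id ℝ) a (fun k => lf b ⟨i, k⟩) (F i)
    have h2 : (fun k : Idx (n i) (d i) => b ⟨i, k⟩ ⬝ᵥ a) =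
        fun k => MvPolynomial.eval a (lf b ⟨i, k⟩) := by
      funext k
      rw [eval_lf]
    rw [h2]
    exact this
  refine ⟨∏ i, MvPolynomial.bind₁ (fun k => lf b ⟨i, k⟩) (F i), ?_, ?_⟩
  · rw [Finset.prod_ne_zero_iff]
    intro i _ h0
    apply hF0 i
    apply MvPolynomial.funext
    intro c
    obtain ⟨a, ha⟩ := basis_dot_surj b fun p => if h : p.1 = i then c (h ▸ p.2) else 0
    have h2 : (fun k : Idx (n i) (d i) => b ⟨i, k⟩ ⬝ᵥ a) = c := by
      funext k
      rw [ha]
      simp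
    rw [map_zero, ← h2, ← hev, h0, map_zero]
  · intro a ha i u hu
    by_contra hno
    push Not at hno
    apply ha
    rw [map_prod]
    apply Finset.prod_eq_zero (Finset.mem_univ i)
    rw [hev]
    exact hF i _ ⟨u, hu, hno⟩

end Pool.Agent.V11208.VM
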