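import Pool.Agent.V11208.VM.B4
import Pool.Agent.V11208.VM.E
import Pool.Agent.Y520.Stmt

/-! Definitions and elementary form: closed Reeb orbits for contact forms with a local torus
symmetry of any rank whose monodromy acts on forms of degree larger than the number of variables by
linear substitutions. -/

open scoped Topology ContDiff Manifold
open Set

noncomputable section

namespace Pool.Agent.V11208.VM

open Pool.Agent.H826R2.WStmt Pool.Agent.W669.ConeStmt Pool.Agent.Y520.Mat Pool.Agent.Y520.SStmt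
  Pool.Agent.Y520

set_option linter.unusedSectionVars false

universe u

theorem bound_form' {k e : ℕ} (hk : 0 < k) (he : k < e) (a : Idx k e → ℝ)
    (ha : ∀ u : Fin k → ℝ, u ≠ 0 → ∃ j, MvPolynomial.eval u (MvPolynomial.pderiv j (toPoly a)) ≠ 0)
    (C : ℝ) : ∃ T : ℝ, ∀ s : Matrix (Fin k) (Fin k) ℝ, s.PosDef → s.det = 1 →
      (∀ w, form a w ^ 2 ≤ C * (w ⬝ᵥ s⁻¹.mulVec w) ^ e) → ∀ i j, |s i j| ≤ T ∧ |s⁻¹ i j| ≤ T := by
  obtain ⟨k, rfl⟩ : ∃ l, k = l + 1 := ⟨k - 1, by omega⟩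
  exact bound_form he a ha C

section

variable {E : Type u} [NormedAddCommGroup E] [NormedSpace ℝ E] [FiniteDimensional ℝ E]
  {M : Type*} [TopologicalSpace M] [ChartedSpace E M] [IsManifold 𝓘(ℝ, E) ∞ M]
  {P : Type*} [TopologicalSpace P] [ChartedSpace E P] [IsManifold 𝓘(ℝ, E) ∞ P]

/-- Let the pairs of an `i ∈ ι` and a monomial of degree `d i` in `n i` variables index a basis `b` of
`ℝ^m`, so that `ℝ^m` is the sum of the symmetric powers `Sym^(d i) ℝ^(n i)`. The monodromy of the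
torus action virtually acts by linear maps on powers: for all elements `γ` of a subgroup of finite
index of `Γ` one has `γ (θ x) = (B θ) (γ x)` with an integer matrix `B` depending on `γ` which maps
the power `v^(d i)` of any vector `v` of `ℝ^(n i)` to `± (g_i v)^(d i)`, with a sign and an invertible
real matrix `g_i` depending on `i` and `γ` only; if `d i ≤ n i`, then `g_i` is a similarity. -/
def MonodromyActsOnPowers (Γ : Type*) [Group Γ] [MulAction Γ P] {m : ℕ}
    (act : (Fin m → ℝ) → P → P) {ι : Type} {n d : ι → ℕ}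
    (b : Module.Basis (Σ i, Idx (n i) (d i)) ℝ (Fin m → ℝ)) : Prop :=
  ∃ Γ₀ : Subgroup Γ, Γ₀.FiniteIndex ∧ ∀ γ ∈ Γ₀, ∃ B : Matrix (Fin m) (Fin m) ℤ,
    (∀ (θ : Fin m → ℝ) (x : P), γ • act θ x = act (fun i => ∑ j, (B i j : ℝ) * θ j) (γ • x)) ∧
    ∃ (ε : ι → ℝ) (g : ∀ i, Matrix (Fin (n i)) (Fin (n i)) ℝ),
      (∀ i, ε i = 1 ∨ ε i = -1) ∧ (∀ i, (g i).det ≠ 0) ∧
      (∀ i, d i ≤ n i → ∃ c : ℝ, g i * (g i).transpose = c • (1 : Matrix _ _ ℝ)) ∧
      ∀ (i : ι) (v : Fin (n i) → ℝ),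
        (B.map (Int.cast : ℤ → ℝ)).mulVec (power b i v) = ε i • power b i ((g i).mulVec v)

/-- **Monodromy acting on powers.** -/
theorem exists_periodic_powers [T2Space M] [CompactSpace M]
    (α : M → Cov E) (hα : IsContact α) (R : M → E) (hR : IsReeb α R)
    [T2Space P] [SigmaCompactSpace P] [Nonempty P]
    {Γ : Type*} [Group Γ] [MulAction Γ P] (q : P → M) (hq : IsQuotientMap E q Γ)
    {m : ℕ} (hm : 0 < m) (A : TorusAction (pull (E := E) q α) m) (hA : Normalises Γ A.act)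
    {ι : Type} [Fintype ι] {n d : ι → ℕ} (hn : ∀ i, 0 < n i) (hd : ∀ i, 0 < d i)
    (b : Module.Basis (Σ i, Idx (n i) (d i)) ℝ (Fin m → ℝ))
    (hAb : MonodromyActsOnPowers Γ A.act b) :
    ∃ (c : ℝ → M) (T : ℝ), IsPeriodicOrbit R c T := by
  classical
  obtain ⟨Γ₀, hΓ₀, hAb⟩ := hAb
  have hK := ker_power b
  obtain ⟨ρ, hρ, hc⟩ := hK.exists_rho
  set J : Finset ι := Finset.univ.filter fun i => n i < d i with hJ
  have hd' : ∀ i, d i ≠ 0 := fun i => (hd i).ne'
  have hX : TotallyGeodesic (YY ρ (NN b) J) := hK.totallyGeodesic' hρ hc hd'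
  obtain ⟨F, hF, hF0⟩ := exists_generic b hn hd
  -- generic covectors are stable
  have hst : ∀ a : Fin m → ℝ, MvPolynomial.eval a F ≠ 0 → IsStable (YY ρ (NN b) J) a := by
    intro a ha
    have hsm := hF0 a ha
    have hpd : ∀ i w, a ⬝ᵥ power b i w = form (fun k => b ⟨i, k⟩ ⬝ᵥ a) w := by
      intro i w
      rw [dotProduct_comm, power_dot]
    apply hK.stable' hρ hn hd' hc
    · intro i
      by_contra hno
      push Not at hno
      have : NeZero (n i) := ⟨(hn i).ne'⟩
      have hv : (Pi.single 0 1 : Fin (n i) → ℝ) ≠ 0 := by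
        intro h0
        have := congrFun h0 0
        simp at this
      obtain ⟨j, hj⟩ := hsm i _ hv
      apply hj
      have h1 : (toPoly fun k => b ⟨i, k⟩ ⬝ᵥ a) = 0 := by
        apply MvPolynomial.funext
        intro w
        rw [eval_toPoly, ← hpd, hno, map_zero]
      rw [h1, map_zero, map_zero]
    · intro i hi C
      obtain ⟨T, hT⟩ := bound_form' (hn i) (Finset.mem_filter.1 hi).2 _ (hsm i) C
      refine ⟨T, fun s hs hdet hle => hT s hs hdet fun w => ?_⟩
      rw [← hpd]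
      exact hle w
  -- a point with stable momentum
  obtain ⟨e, he⟩ : ∃ e, MvPolynomial.homogeneousComponent e F ≠ 0 := by
    by_contra hno
    push Not at hno
    apply hF
    rw [← MvPolynomial.sum_homogeneousComponent F]
    exact Finset.sum_eq_zero fun i _ => hno i
  have hq' : H826R2.Wein.RegCover (E := E) q Γ := hq.toWein
  obtain ⟨x, hx⟩ := exists_pf_ne_zero A.toWein (hq'.isContact_pull hα.toWein)
    (hq'.isReeb_lift hα.toWein hR.toWein) e _
    (MvPolynomial.homogeneousComponent_isHomogeneous e F) he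
  obtain ⟨c, hc, hcF⟩ := exists_smul_ne_zero hx
  have hx' : IsStable (YY ρ (NN b) J) (fun i => momentum A x (Pi.single i 1)) :=
    (hst _ hcF).of_smul
  set p : Matrix (Fin m) (Fin m) ℤ → Prop := fun B =>
    ∃ (ε : ι → ℝ) (g : ∀ i, Matrix (Fin (n i)) (Fin (n i)) ℝ),
      (∀ i, ε i = 1 ∨ ε i = -1) ∧ (∀ i, (g i).det ≠ 0) ∧
      (∀ i, d i ≤ n i → ∃ c : ℝ, g i * (g i).transpose = c • (1 : Matrix _ _ ℝ)) ∧
      ∀ (i : ι) (v : Fin (n i) → ℝ),
        (B.map (Int.cast : ℤ → ℝ)).mulVec (power b i v) = ε i • power b i ((g i).mulVec v)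
    with hp
  have hpX : ∀ B : Matrix (Fin m) (Fin m) ℤ, IsUnit B.det → p B →
      ∀ S ∈ YY ρ (NN b) J, Br B * S * (Br B).transpose ∈ YY ρ (NN b) J := by
    rintro B hB ⟨ε, g, hε, hg, hsim, hBp⟩ S hS
    refine hK.invariant' hρ (e := ε) (g := g) ?_ ?_ ?_ ?_ hBp hS
    · intro i
      rcases hε i with h | h <;> rw [h] <;> norm_num
    · have h3 : ((B.map (Int.cast : ℤ → ℝ)).det) = (((B).det : ℤ) : ℝ) := (Int.cast_det B).symm
      show (B.map (Int.cast : ℤ → ℝ)).det * (B.map (Int.cast : ℤ → ℝ)).det = 1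
      rw [h3]
      rcases Int.isUnit_iff.1 hB with h | h <;> rw [h] <;> norm_num
    · intro i
      rw [Matrix.isUnit_iff_isUnit_det]
      exact isUnit_iff_ne_zero.2 (hg i)
    · intro i hi
      have hi' : d i ≤ n i := by
        by_contra hlt
        push Not at hlt
        exact hi (Finset.mem_filter.2 ⟨Finset.mem_univ _, hlt⟩)
      obtain ⟨c, hc⟩ := hsim i hi'
      rw [hc]
      intro D
      rw [Matrix.smul_mul, Matrix.mul_smul, Matrix.one_mul, Matrix.mul_one]

  obtain ⟨c, T, h1, h2, h3⟩ := exists_closed_orbit_stable' hα.toWein hR.toWein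
    hq.toWein hm A.toWein hX.toTG hX.nonempty hA Γ₀ hΓ₀ p hAb hpX ⟨x, hx'.toStab⟩
  exact ⟨c, T, h1, h2, h3⟩

end

end Pool.Agent.V11208.VM
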