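import Pool.Agent.V11208.VM.C
import Pool.Agent.Y520.Comm

/-! Totally geodesic families of inner products from kernels `(v · w)^d`. -/

open Finset Matrix Filter Topology

namespace Pool.Agent.V11208.VM

open Pool.Agent.Y520.Mat

/-- vectors `cc i v` in `ℝ^m` and an inner product `N` with kernel `(v · w)^(d i)` -/
structure Ker {ι : Type} (n d : ι → ℕ) (m : ℕ) (cc : ∀ i, (Fin (n i) → ℝ) → (Fin m → ℝ))
    (N : Mt m) : Prop where
  pos : N.PosDef
  k1 : ∀ i v w, cc i v ⬝ᵥ N *ᵥ cc i w = (v ⬝ᵥ w) ^ d i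
  k2 : ∀ i j, i ≠ j → ∀ v w, cc i v ⬝ᵥ N *ᵥ cc j w = 0
  span : ∀ a : Fin m → ℝ, (∀ i v, cc i v ⬝ᵥ a = 0) → a = 0
  cont : ∀ i, Continuous (cc i)

variable {ι : Type} [Fintype ι] {n d : ι → ℕ} {m : ℕ}
  {cc : ∀ i, (Fin (n i) → ℝ) → (Fin m → ℝ)} {N : Mt m}

/-- families of square matrices -/
abbrev Gm (n : ι → ℕ) : Type := ∀ i, Matrix (Fin (n i)) (Fin (n i)) ℝ

namespace Ker

variable (h : Ker n d m cc N)
include h

omit [Fintype ι] in
theorem ext2 {x y : Fin m → ℝ} (hxy : ∀ i v, cc i v ⬝ᵥ x = cc i v ⬝ᵥ y) : x = y := by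
  rw [← sub_eq_zero]
  apply h.span
  intro i v
  rw [dotProduct_sub, hxy, sub_self]

omit [Fintype ι] in
theorem ext {A B : Mt m} (hAB : ∀ i v, A *ᵥ cc i v = B *ᵥ cc i v) : A = B := by
  have h1 : ∀ r, A r = B r := by
    intro r
    apply h.ext2
    intro i v
    have h2 := congrFun (hAB i v) r
    simp only [mulVec] at h2
    rw [dotProduct_comm, h2, dotProduct_comm]
  exact funext h1

omit [Fintype ι] in
theorem adj (g : Gm n) (i j : ι) (v : Fin (n i) → ℝ) (w : Fin (n j) → ℝ) :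
    cc i v ⬝ᵥ N *ᵥ cc j (g j *ᵥ w) = cc i ((g i)ᵀ *ᵥ v) ⬝ᵥ N *ᵥ cc j w := by
  by_cases hij : i = j
  · subst hij
    rw [h.k1, h.k1]
    congr 1
    rw [dotProduct_mulVec, ← mulVec_transpose]
  · rw [h.k2 i j hij, h.k2 i j hij]

omit [Fintype ι] in
/-- points whose vectors form a basis -/
theorem exists_pts : ∃ ω : Fin m → Σ i, (Fin (n i) → ℝ),
    IsUnit (Matrix.of fun r p => cc (ω p).1 (ω p).2 r : Mt m).det := by
  have hsp : Submodule.span ℝ (Set.range fun p : Σ i, (Fin (n i) → ℝ) => cc p.1 p.2) = ⊤ := by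
    by_contra hne
    obtain ⟨f, hf, hf0⟩ := Submodule.exists_le_ker_of_lt_top _ (lt_top_iff_ne_top.2 hne)
    apply hf
    have h1 : (fun r => f (Pi.single r 1)) = 0 := by
      apply h.span
      intro i v
      have h2 : f (cc i v) = 0 := hf0 (Submodule.subset_span ⟨⟨i, v⟩, rfl⟩)
      rw [← h2]
      conv_rhs => rw [pi_eq_sum_univ' (cc i v)]
      rw [map_sum]
      unfold dotProduct
      refine Finset.sum_congr rfl fun r _ => ?_
      rw [map_smul, smul_eq_mul]
    apply LinearMap.pi_ext'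
    intro r
    apply LinearMap.ext_ring
    exact congrFun h1 r
  obtain ⟨b, hb, hspan, hind⟩ := exists_linearIndependent ℝ
    (Set.range fun p : Σ i, (Fin (n i) → ℝ) => cc p.1 p.2)
  rw [hsp] at hspan
  have hB := Module.Basis.mk hind (by rw [Subtype.range_coe, hspan])
  have hfin : Finite b := Module.Finite.finite_basis hB
  have : Fintype b := Fintype.ofFinite b
  have hcard : Fintype.card b = m := by
    have := Module.finrank_eq_card_basis hB
    rw [Module.finrank_fin_fun] at this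
    exact this.symm
  let e : Fin m ≃ b := (Fintype.equivFinOfCardEq hcard).symm
  have hω : ∀ p : Fin m, ∃ ω : Σ i, (Fin (n i) → ℝ), cc ω.1 ω.2 = (e p : Fin m → ℝ) := fun p => hb (e p).2
  choose ω hω using hω
  refine ⟨ω, ?_⟩
  have hli : LinearIndependent ℝ fun p => cc (ω p).1 (ω p).2 := by
    have h3 : (fun p => cc (ω p).1 (ω p).2) = (Subtype.val : b → _) ∘ e := funext hω
    rw [h3]
    exact hind.comp e e.injective
  have h4 := Matrix.linearIndependent_rows_iff_isUnit (A := (Matrix.of fun p r => cc (ω p).1 (ω p).2 r : Mt m))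
  have h5 : IsUnit (Matrix.of fun p r => cc (ω p).1 (ω p).2 r : Mt m) := h4.1 hli
  have h6 : (Matrix.of fun r p => cc (ω p).1 (ω p).2 r : Mt m) =
      (Matrix.of fun p r => cc (ω p).1 (ω p).2 r : Mt m)ᵀ := rfl
  rw [h6, det_transpose]
  exact (Matrix.isUnit_iff_isUnit_det _).1 h5

omit [Fintype ι] in
/-- the representation -/
theorem exists_rho : ∃ ρ : Gm n → Mt m, (∀ g i v, ρ g *ᵥ cc i v = cc i (g i *ᵥ v)) ∧
    Continuous ρ := by
  obtain ⟨ω, hω⟩ := h.exists_pts
  set W : Mt m := Matrix.of fun r p => cc (ω p).1 (ω p).2 r with hW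
  have hWN : IsUnit (Wᵀ * N).det := by
    rw [det_mul, det_transpose]
    exact hω.mul (det_unit h.pos)
  set Km : Gm n → Mt m := fun g => Matrix.of fun p q =>
    cc (ω p).1 (ω p).2 ⬝ᵥ N *ᵥ cc (ω q).1 (g (ω q).1 *ᵥ (ω q).2) with hKm
  refine ⟨fun g => (Wᵀ * N)⁻¹ * Km g * W⁻¹, ?_, ?_⟩
  · intro g i v
    have h1 : (Wᵀ * N) *ᵥ (((Wᵀ * N)⁻¹ * Km g * W⁻¹) *ᵥ cc i v) =
        (Wᵀ * N) *ᵥ cc i (g i *ᵥ v) := by
      rw [mulVec_mulVec, ← Matrix.mul_assoc, ← Matrix.mul_assoc, mul_nonsing_inv _ hWN,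
        Matrix.one_mul, ← mulVec_mulVec]
      set x := W⁻¹ *ᵥ cc i v with hx
      have hWx : W *ᵥ x = cc i v := by
        rw [hx, mulVec_mulVec, mul_nonsing_inv _ hω, one_mulVec]
      ext p
      have h2 : ((Wᵀ * N) *ᵥ cc i (g i *ᵥ v)) p =
          cc (ω p).1 (ω p).2 ⬝ᵥ N *ᵥ cc i (g i *ᵥ v) := by
        rw [← mulVec_mulVec]
        rfl
      rw [h2, h.adj, ← hWx]
      have h3 : (Km g *ᵥ x) p = ∑ q, (cc (ω p).1 ((g (ω p).1)ᵀ *ᵥ (ω p).2) ⬝ᵥ
          N *ᵥ cc (ω q).1 (ω q).2) * x q := by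
        simp only [mulVec, dotProduct, hKm, Matrix.of_apply]
        refine Finset.sum_congr rfl fun q _ => ?_
        congr 1
        exact h.adj g _ _ _ _
      rw [h3]
      have h4 : W *ᵥ x = ∑ q, x q • cc (ω q).1 (ω q).2 := by
        ext r
        simp only [mulVec, dotProduct, hW, Matrix.of_apply, Finset.sum_apply, Pi.smul_apply,
          smul_eq_mul]
        exact Finset.sum_congr rfl fun q _ => mul_comm _ _
      rw [h4, mulVec_sum, dotProduct_sum]
      refine Finset.sum_congr rfl fun q _ => ?_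
      rw [mulVec_smul, dotProduct_smul, smul_eq_mul, mul_comm]
    have h5 := congrArg (fun y => (Wᵀ * N)⁻¹ *ᵥ y) h1
    simpa only [mulVec_mulVec, nonsing_inv_mul _ hWN, Matrix.one_mul, ← Matrix.mul_assoc,
      one_mulVec] using h5
  · have hKc : Continuous Km := by
      apply continuous_matrix
      intro p q
      have h1 : Continuous fun g : Gm n => g (ω q).1 *ᵥ (ω q).2 :=
        (continuous_apply (ω q).1).matrix_mulVec continuous_const
      have h2 : Continuous fun g : Gm n => N *ᵥ cc (ω q).1 (g (ω q).1 *ᵥ (ω q).2) :=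
        (continuous_const (y := N)).matrix_mulVec ((h.cont _).comp h1)
      exact (continuous_const (y := cc (ω p).1 (ω p).2)).dotProduct h2
    exact (continuous_const.matrix_mul hKc).matrix_mul continuous_const

end Ker

end Pool.Agent.V11208.VM
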