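import Pool.Agent.V11208.VM.B

/-! The totally geodesic families of inner products attached to kernels `(v · w)^d`. -/

open Finset Matrix Filter Topology

namespace Pool.Agent.V11208.VM

open Pool.Agent.Y520.Mat Pool.Agent.Y520.SStmt

variable {ι : Type} [Fintype ι] {n d : ι → ℕ} {m : ℕ}
  {cc : ∀ i, (Fin (n i) → ℝ) → (Fin m → ℝ)} {N : Mt m}

/-- positive definite families of determinant one, trivial outside `J` -/
def Pos (n : ι → ℕ) (J : Finset ι) (s : Gm n) : Prop :=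
  (∀ i, (s i).PosDef ∧ (s i).det = 1) ∧ ∀ i, i ∉ J → s i = 1

/-- the inner products -/
def XX (ρ : Gm n → Mt m) (N : Mt m) (J : Finset ι) : Set (Mt m) :=
  {S | ∃ s : Gm n, Pos n J s ∧ S = ρ s * N⁻¹}

namespace Ker

section

variable (h : Ker n d m cc N) {ρ : Gm n → Mt m} (hρ : ∀ g i v, ρ g *ᵥ cc i v = cc i (g i *ᵥ v))
include h hρ

omit [Fintype ι] in
theorem rho_mul (g g' : Gm n) : ρ (fun i => g i * g' i) = ρ g * ρ g' := by
  apply h.ext
  intro i v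
  rw [hρ, ← mulVec_mulVec, ← mulVec_mulVec, hρ, hρ]

omit [Fintype ι] in
theorem rho_one : ρ (fun _ => 1) = 1 := by
  apply h.ext
  intro i v
  rw [hρ, one_mulVec, one_mulVec]

omit [Fintype ι] in
theorem rho_adj (g : Gm n) : N * ρ g = (ρ fun i => (g i)ᵀ)ᵀ * N := by
  apply h.ext
  intro j w
  apply h.ext2
  intro i v
  rw [← mulVec_mulVec, hρ, h.adj, ← mulVec_mulVec, dotProduct_transpose_mulVec, hρ,
    dotProduct_comm]

omit [Fintype ι] in
theorem rho_sym {s : Gm n} (hs : ∀ i, (s i)ᵀ = s i) : ρ s * N⁻¹ = N⁻¹ * (ρ s)ᵀ := by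
  have h1 := h.rho_adj hρ s
  have h2 : (fun i => (s i)ᵀ) = s := funext hs
  rw [h2] at h1
  calc ρ s * N⁻¹ = N⁻¹ * (N * ρ s) * N⁻¹ := by
        rw [← Matrix.mul_assoc, inv_mul h.pos, Matrix.one_mul]
    _ = N⁻¹ * (ρ s)ᵀ * (N * N⁻¹) := by rw [h1]; noncomm_ring
    _ = N⁻¹ * (ρ s)ᵀ := by rw [mul_inv h.pos, Matrix.mul_one]

omit [Fintype ι] in
theorem rho_inv {s : Gm n} (hs : ∀ i, (s i).PosDef) : ρ s * ρ (fun i => (s i)⁻¹) = 1 := by
  rw [← h.rho_mul hρ]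
  have : (fun i => s i * (s i)⁻¹) = fun _ => 1 := funext fun i => mul_inv (hs i)
  rw [this, h.rho_one hρ]

omit [Fintype ι] in
theorem posDef {s : Gm n} (hs : ∀ i, (s i).PosDef) : (ρ s * N⁻¹).PosDef := by
  have h1 : ∀ i, ∃ r : Matrix (Fin (n i)) (Fin (n i)) ℝ, r.PosDef ∧ r * r = s i := fun i =>
    exists_sqrt (hs i)
  choose r hr hrr using h1
  have h2 : ρ s = ρ r * ρ r := by
    rw [← h.rho_mul hρ]
    congr 1
    exact (funext hrr).symm
  have h3 : ρ s * N⁻¹ = ρ r * N⁻¹ * (ρ r)ᵀ := by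
    have h4 := h.rho_sym hρ (s := r) fun i => symd (hr i)
    calc ρ s * N⁻¹ = ρ r * (ρ r * N⁻¹) := by rw [h2, Matrix.mul_assoc]
      _ = ρ r * (N⁻¹ * (ρ r)ᵀ) := by rw [h4]
      _ = ρ r * N⁻¹ * (ρ r)ᵀ := by rw [Matrix.mul_assoc]
  rw [h3]
  apply pd_conj h.pos.inv
  exact IsUnit.of_mul_eq_one _ (h.rho_inv hρ hr)

omit [Fintype ι] in
theorem inv_eq {s : Gm n} (hs : ∀ i, (s i).PosDef) :
    (ρ s * N⁻¹)⁻¹ = N * ρ (fun i => (s i)⁻¹) := by
  apply inv_eq_right_inv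
  calc ρ s * N⁻¹ * (N * ρ fun i => (s i)⁻¹) = ρ s * (N⁻¹ * N) * ρ (fun i => (s i)⁻¹) := by
        noncomm_ring
    _ = 1 := by rw [inv_mul h.pos, Matrix.mul_one, h.rho_inv hρ hs]

omit [Fintype ι] in
theorem quad_inv {s : Gm n} (hs : ∀ i, (s i).PosDef) (i : ι) (v : Fin (n i) → ℝ) :
    cc i v ⬝ᵥ (ρ s * N⁻¹)⁻¹ *ᵥ cc i v = (v ⬝ᵥ (s i)⁻¹ *ᵥ v) ^ d i := by
  rw [h.inv_eq hρ hs, ← mulVec_mulVec, hρ, h.k1]

omit [Fintype ι] in
/-- invariance -/
theorem invariant {J : Finset ι} {B : Mt m} {g : Gm n} {e : ι → ℝ} (he : ∀ i, e i * e i = 1)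
    (hdet : ∀ i, (g i).det * (g i).det = 1) (hJ : ∀ i, i ∉ J → g i * (g i)ᵀ = 1)
    (hB : ∀ i v, B *ᵥ cc i v = e i • cc i (g i *ᵥ v)) {S : Mt m} (hS : S ∈ XX ρ N J) :
    B * S * Bᵀ ∈ XX ρ N J := by
  obtain ⟨s, hs, rfl⟩ := hS
  refine ⟨fun i => g i * s i * (g i)ᵀ, ⟨fun i => ⟨?_, ?_⟩, fun i hi => ?_⟩, ?_⟩
  · apply pd_conj (hs.1 i).1
    rw [isUnit_iff_isUnit_det]
    exact IsUnit.of_mul_eq_one _ (hdet i)
  · rw [det_mul, det_mul, (hs.1 i).2, mul_one, det_transpose, hdet i]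
  · show g i * s i * (g i)ᵀ = 1
    rw [hs.2 i hi, Matrix.mul_one, hJ i hi]
  · have hBN : ∀ j w, Bᵀ *ᵥ (N *ᵥ cc j w) = e j • (N *ᵥ cc j ((g j)ᵀ *ᵥ w)) := by
      intro j w
      apply h.ext2
      intro i v
      rw [dotProduct_transpose_mulVec, hB, dotProduct_smul, dotProduct_smul, dotProduct_comm]
      have h1 := h.adj (fun i => (g i)ᵀ) i j v w
      rw [transpose_transpose] at h1
      rw [h1]
      by_cases hij : i = j
      · subst hij
        rfl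
      · rw [h.k2 i j hij]
        simp
    have h1 : B * (ρ s * N⁻¹) * Bᵀ * N = ρ fun i => g i * s i * (g i)ᵀ := by
      apply h.ext
      intro j w
      rw [← mulVec_mulVec, ← mulVec_mulVec, hBN, mulVec_smul, ← mulVec_mulVec, ← mulVec_mulVec,
        mulVec_mulVec _ N⁻¹ N, inv_mul h.pos, one_mulVec, hρ, hB, smul_smul, he, one_smul, hρ,
        mulVec_mulVec, mulVec_mulVec, Matrix.mul_assoc]
    calc B * (ρ s * N⁻¹) * Bᵀ = B * (ρ s * N⁻¹) * Bᵀ * N * N⁻¹ := by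
          rw [Matrix.mul_assoc _ N, mul_inv h.pos, Matrix.mul_one]
      _ = (ρ fun i => g i * s i * (g i)ᵀ) * N⁻¹ := by rw [h1]

omit [Fintype ι] in
theorem closed (hc : Continuous ρ) {J : Finset ι} (hd : ∀ i ∈ J, d i ≠ 0) {S : Mt m}
    (hS : S ∈ closure (XX ρ N J)) (hpS : S.PosDef) : S ∈ XX ρ N J := by
  classical
  have hne : (𝓝[XX ρ N J] S).NeBot := mem_closure_iff_nhdsWithin_neBot.1 hS
  have hid : Tendsto (fun S' : Mt m => S') (𝓝[XX ρ N J] S) (𝓝 S) := nhdsWithin_le_nhds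
  have hex : ∀ S' : Mt m, ∃ s : Gm n, S' ∈ XX ρ N J → Pos n J s ∧ S' = ρ s * N⁻¹ := by
    intro S'
    by_cases hS' : S' ∈ XX ρ N J
    · obtain ⟨s, h1, h2⟩ := hS'
      exact ⟨s, fun _ => ⟨h1, h2⟩⟩
    · exact ⟨fun _ => 1, fun h => absurd h hS'⟩
  choose s hs using hex
  have hev : ∀ᶠ S' in 𝓝[XX ρ N J] S, Pos n J (s S') ∧ S' = ρ (s S') * N⁻¹ := by
    filter_upwards [self_mem_nhdsWithin] with S' hS'
    exact hs S' hS'
  have hinvT : Tendsto (fun S' : Mt m => S'⁻¹) (𝓝[XX ρ N J] S) (𝓝 S⁻¹) := by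
    have h1 : ContinuousAt (fun S' : Mt m => S'⁻¹) S := continuousAt_inv (det_ne hpS)
    exact h1.tendsto.comp hid
  -- the components converge
  have hcomp : ∀ i, ∃ σ : Matrix (Fin (n i)) (Fin (n i)) ℝ, σ.PosDef ∧ σ.det = 1 ∧
      (i ∉ J → σ = 1) ∧ Tendsto (fun S' => s S' i) (𝓝[XX ρ N J] S) (𝓝 σ) := by
    intro i
    by_cases hi : i ∈ J
    swap
    · refine ⟨1, PosDef.one, det_one, fun _ => rfl, ?_⟩
      apply tendsto_const_nhds.congr'
      filter_upwards [hev] with S' hS'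
      exact (hS'.1.2 i hi).symm
    have hq : ∀ v : Fin (n i) → ℝ, Tendsto (fun S' => v ⬝ᵥ (s S' i)⁻¹ *ᵥ v) (𝓝[XX ρ N J] S)
        (𝓝 ((cc i v ⬝ᵥ S⁻¹ *ᵥ cc i v) ^ ((d i : ℝ)⁻¹))) := by
      intro v
      have h1 : Tendsto (fun S' : Mt m => cc i v ⬝ᵥ S'⁻¹ *ᵥ cc i v) (𝓝[XX ρ N J] S)
          (𝓝 (cc i v ⬝ᵥ S⁻¹ *ᵥ cc i v)) := by
        have h2 : Continuous fun T : Mt m => cc i v ⬝ᵥ T *ᵥ cc i v := by fun_prop
        exact (h2.tendsto _).comp hinvT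
      have h3 := h1.rpow_const (p := (d i : ℝ)⁻¹) (Or.inr (by positivity))
      apply h3.congr'
      filter_upwards [hev] with S' hS'
      have h4 : cc i v ⬝ᵥ S'⁻¹ *ᵥ cc i v = (v ⬝ᵥ (s S' i)⁻¹ *ᵥ v) ^ d i := by
        conv_lhs => rw [hS'.2]
        exact h.quad_inv hρ (fun i => (hS'.1.1 i).1) i v
      rw [h4]
      apply Real.pow_rpow_inv_natCast _ (hd i hi)
      have := (hS'.1.1 i).1.inv.posSemidef.dotProduct_mulVec_nonneg v
      rwa [star_trivial] at this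
    set L : (Fin (n i) → ℝ) → ℝ := fun v => (cc i v ⬝ᵥ S⁻¹ *ᵥ cc i v) ^ ((d i : ℝ)⁻¹) with hL
    set τ : Matrix (Fin (n i)) (Fin (n i)) ℝ := Matrix.of fun a b =>
      (L (Pi.single a 1 + Pi.single b 1) - L (Pi.single a 1) - L (Pi.single b 1)) / 2 with hτ
    have hent : Tendsto (fun S' => (s S' i)⁻¹) (𝓝[XX ρ N J] S) (𝓝 τ) := by
      refine tendsto_pi_nhds.2 fun a => tendsto_pi_nhds.2 fun b => ?_
      have h1 := (((hq (Pi.single a 1 + Pi.single b 1)).sub (hq (Pi.single a 1))).sub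
        (hq (Pi.single b 1))).div_const 2
      apply h1.congr'
      filter_upwards [hev] with S' hS'
      have hsym := symd (hS'.1.1 i).1.inv
      have h2 : (s S' i)⁻¹ b a = (s S' i)⁻¹ a b := by
        conv_lhs => rw [← hsym]
        rfl
      rw [mulVec_add, dotProduct_add, add_dotProduct, add_dotProduct]
      have h3 : ∀ a b : Fin (n i), (Pi.single a 1 : Fin (n i) → ℝ) ⬝ᵥ
          (s S' i)⁻¹ *ᵥ (Pi.single b 1) = (s S' i)⁻¹ a b := by
        intro a b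
        rw [mulVec_single_one, single_one_dotProduct]
        rfl
      rw [h3, h3, h3, h3, h2]
      ring
    have hτdet : τ.det = 1 := by
      have h1 : Tendsto (fun S' => ((s S' i)⁻¹).det) (𝓝[XX ρ N J] S) (𝓝 τ.det) :=
        ((Continuous.matrix_det continuous_id).tendsto τ).comp hent
      refine tendsto_nhds_unique h1 (tendsto_const_nhds.congr' ?_)
      filter_upwards [hev] with S' hS'
      rw [det_nonsing_inv, (hS'.1.1 i).2]
      simp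
    have hτsym : τ.IsHermitian := by
      have h1 : Tendsto (fun S' => ((s S' i)⁻¹)ᵀ) (𝓝[XX ρ N J] S) (𝓝 τᵀ) :=
        ((Continuous.matrix_transpose continuous_id).tendsto τ).comp hent
      have h2 : τᵀ = τ := by
        refine tendsto_nhds_unique h1 (hent.congr' ?_)
        filter_upwards [hev] with S' hS'
        exact (symd (hS'.1.1 i).1.inv).symm
      rw [IsHermitian, conjTranspose_eq_transpose_of_trivial, h2]
    have hτpsd : τ.PosSemidef := by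
      refine PosSemidef.of_dotProduct_mulVec_nonneg hτsym fun v => ?_
      rw [star_trivial]
      have h2 : Continuous fun T : Matrix (Fin (n i)) (Fin (n i)) ℝ => v ⬝ᵥ T *ᵥ v := by fun_prop
      refine ge_of_tendsto ((h2.tendsto τ).comp hent) ?_
      filter_upwards [hev] with S' hS'
      have := (hS'.1.1 i).1.inv.posSemidef.dotProduct_mulVec_nonneg v
      rwa [star_trivial] at this
    have hτpd : τ.PosDef := by
      rw [hτpsd.posDef_iff_det_ne_zero, hτdet]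
      exact one_ne_zero
    refine ⟨τ⁻¹, hτpd.inv, ?_, fun h => absurd hi h, ?_⟩
    · rw [det_nonsing_inv, hτdet]
      simp
    · have h1 : ContinuousAt (fun T : Matrix (Fin (n i)) (Fin (n i)) ℝ => T⁻¹) τ :=
        continuousAt_inv (det_ne hτpd)
      have h2 := h1.tendsto.comp hent
      apply h2.congr'
      filter_upwards [hev] with S' hS'
      exact nonsing_inv_nonsing_inv _ (det_unit (hS'.1.1 i).1)
  choose σ hσ1 hσ2 hσ3 hσ4 using hcomp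
  refine ⟨σ, ⟨fun i => ⟨hσ1 i, hσ2 i⟩, fun i hi => hσ3 i hi⟩, ?_⟩
  have h1 : Tendsto s (𝓝[XX ρ N J] S) (𝓝 σ) := tendsto_pi_nhds.2 hσ4
  have h2 : Tendsto (fun S' => ρ (s S') * N⁻¹) (𝓝[XX ρ N J] S) (𝓝 (ρ σ * N⁻¹)) := by
    have h3 : Continuous fun g : Gm n => ρ g * N⁻¹ := hc.matrix_mul continuous_const
    exact (h3.tendsto σ).comp h1
  refine tendsto_nhds_unique hid (h2.congr' ?_)
  filter_upwards [hev] with S' hS'
  exact hS'.2.symm

omit [Fintype ι] in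
theorem totallyGeodesic (hc : Continuous ρ) {J : Finset ι} (hd : ∀ i ∈ J, d i ≠ 0) :
    TotallyGeodesic (XX ρ N J) := by
  classical
  refine ⟨⟨ρ (fun _ => 1) * N⁻¹, fun _ => 1, ⟨fun i => ⟨PosDef.one, det_one⟩, fun _ _ => rfl⟩, rfl⟩,
    ?_, fun S hS hp => h.closed hρ hc hd hS hp, ?_, ?_⟩
  · rintro _ ⟨s, hs, rfl⟩
    exact h.posDef hρ fun i => (hs.1 i).1
  · rintro _ ⟨s, hs, rfl⟩ _ ⟨t, ht, rfl⟩
    refine ⟨fun i => t i * (s i)⁻¹ * t i, ⟨fun i => ⟨?_, ?_⟩, fun i hi => ?_⟩, ?_⟩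
    · have := pd_conj (hs.1 i).1.inv (ht.1 i).1.isUnit
      rwa [symd (ht.1 i).1] at this
    · rw [det_mul, det_mul, (ht.1 i).2, det_nonsing_inv, (hs.1 i).2]
      simp
    · show t i * (s i)⁻¹ * t i = 1
      rw [hs.2 i hi, ht.2 i hi]
      simp
    · rw [h.inv_eq hρ fun i => (hs.1 i).1, h.rho_mul hρ, h.rho_mul hρ]
      calc ρ t * N⁻¹ * (N * ρ fun i => (s i)⁻¹) * (ρ t * N⁻¹) =
          ρ t * (N⁻¹ * N) * (ρ fun i => (s i)⁻¹) * ρ t * N⁻¹ := by noncomm_ring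
        _ = (ρ t * ρ fun i => (s i)⁻¹) * ρ t * N⁻¹ := by rw [inv_mul h.pos, Matrix.mul_one]
  · rintro _ ⟨s, hs, rfl⟩ _ ⟨t, ht, rfl⟩
    have hex : ∀ i, ∃ G : Matrix (Fin (n i)) (Fin (n i)) ℝ, G.PosDef ∧ G.det = 1 ∧
        (i ∉ J → G = 1) ∧ G * (s i)⁻¹ * G = t i := by
      intro i
      by_cases hi : i ∈ J
      · obtain ⟨G, hG, hGT⟩ := exists_mean (hs.1 i).1 (ht.1 i).1
        refine ⟨G, hG, ?_, fun h => absurd hi h, hGT⟩
        have h1 := congrArg det hGT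
        rw [det_mul, det_mul, det_nonsing_inv, (hs.1 i).2, (ht.1 i).2] at h1
        have h2 := hG.det_pos
        rw [Ring.inverse_one, mul_one] at h1
        nlinarith
      · refine ⟨1, PosDef.one, det_one, fun _ => rfl, ?_⟩
        rw [hs.2 i hi, ht.2 i hi]
        simp
    choose G hG1 hG2 hG3 hG4 using hex
    refine ⟨ρ G * N⁻¹, ⟨G, ⟨fun i => ⟨hG1 i, hG2 i⟩, hG3⟩, rfl⟩, ?_⟩
    have h5 : t = fun i => G i * (s i)⁻¹ * G i := (funext hG4).symm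
    rw [h.inv_eq hρ fun i => (hs.1 i).1, h5, h.rho_mul hρ, h.rho_mul hρ]
    calc ρ G * N⁻¹ * (N * ρ fun i => (s i)⁻¹) * (ρ G * N⁻¹) =
        ρ G * (N⁻¹ * N) * (ρ fun i => (s i)⁻¹) * ρ G * N⁻¹ := by noncomm_ring
      _ = (ρ G * ρ fun i => (s i)⁻¹) * ρ G * N⁻¹ := by rw [inv_mul h.pos, Matrix.mul_one]

/-- stability from bounds -/
theorem stable (hc : Continuous ρ) {J : Finset ι} {a : Fin m → ℝ}
    (hb : ∀ i ∈ J, ∀ C : ℝ, ∃ T : ℝ, ∀ s : Matrix (Fin (n i)) (Fin (n i)) ℝ, s.PosDef → s.det = 1 →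
      (∀ w, (a ⬝ᵥ cc i w) ^ 2 ≤ C * (w ⬝ᵥ s⁻¹ *ᵥ w) ^ d i) →
      ∀ r q, |s r q| ≤ T ∧ |s⁻¹ r q| ≤ T) : IsStable (XX ρ N J) a := by
  classical
  intro C
  have h1 : ∀ i, ∃ T : ℝ, i ∈ J → ∀ s : Matrix (Fin (n i)) (Fin (n i)) ℝ, s.PosDef → s.det = 1 →
      (∀ w, (a ⬝ᵥ cc i w) ^ 2 ≤ C * (w ⬝ᵥ s⁻¹ *ᵥ w) ^ d i) →
      ∀ r q, |s r q| ≤ T ∧ |s⁻¹ r q| ≤ T := by
    intro i
    by_cases hi : i ∈ J
    · obtain ⟨T, hT⟩ := hb i hi C
      exact ⟨T, fun _ => hT⟩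
    · exact ⟨0, fun h => absurd h hi⟩
  choose T hT using h1
  set K : Set (Gm n) := Set.pi Set.univ fun i => Set.pi Set.univ fun _ => Set.pi Set.univ fun _ =>
    Set.Icc (-(max (T i) 1)) (max (T i) 1) with hK
  have hKc : IsCompact K :=
    isCompact_univ_pi fun i => isCompact_univ_pi fun _ => isCompact_univ_pi fun _ => isCompact_Icc
  have hmem : ∀ g : Gm n, (∀ i r q, |g i r q| ≤ max (T i) 1) → g ∈ K := by
    intro g hg i _ r _ q _
    exact abs_le.1 (hg i r q)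
  obtain ⟨b1, hb1⟩ : ∃ b, ∀ g ∈ K, ∀ r q, |(ρ g * N⁻¹) r q| ≤ b := by
    have h2 : ∀ p : Fin m × Fin m, ∃ b, ∀ g ∈ K, ‖(ρ g * N⁻¹) p.1 p.2‖ ≤ b := fun p =>
      hKc.exists_bound_of_continuousOn
        (Continuous.matrix_elem (hc.matrix_mul continuous_const) p.1 p.2).continuousOn
    choose b hb using h2
    refine ⟨∑ p, |b p|, fun g hg r q => ?_⟩
    refine (hb (r, q) g hg).trans ((le_abs_self _).trans ?_)
    exact Finset.single_le_sum (f := fun p => |b p|) (fun p _ => abs_nonneg _) (Finset.mem_univ _)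
  obtain ⟨b2, hb2⟩ : ∃ b, ∀ g ∈ K, ∀ r q, |(N * ρ g) r q| ≤ b := by
    have h2 : ∀ p : Fin m × Fin m, ∃ b, ∀ g ∈ K, ‖(N * ρ g) p.1 p.2‖ ≤ b := fun p =>
      hKc.exists_bound_of_continuousOn
        (Continuous.matrix_elem (continuous_const.matrix_mul hc) p.1 p.2).continuousOn
    choose b hb using h2
    refine ⟨∑ p, |b p|, fun g hg r q => ?_⟩
    refine (hb (r, q) g hg).trans ((le_abs_self _).trans ?_)
    exact Finset.single_le_sum (f := fun p => |b p|) (fun p _ => abs_nonneg _) (Finset.mem_univ _)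
  refine ⟨max b1 b2, ?_⟩
  rintro _ ⟨s, hs, rfl⟩ hC
  have hpd := h.posDef hρ fun i => (hs.1 i).1
  have hquad : a ⬝ᵥ (ρ s * N⁻¹) *ᵥ a ≤ C := by
    rw [quad_eq]
    exact hC
  have hbound : ∀ i r q, |s i r q| ≤ max (T i) 1 ∧ |(s i)⁻¹ r q| ≤ max (T i) 1 := by
    intro i r q
    by_cases hi : i ∈ J
    · have h2 := hT i hi (s i) (hs.1 i).1 (hs.1 i).2 (fun w => by
        have h3 := cs hpd a (cc i w)
        rw [h.quad_inv hρ fun i => (hs.1 i).1] at h3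
        refine h3.trans (mul_le_mul_of_nonneg_right hquad ?_)
        apply pow_nonneg
        have := (hs.1 i).1.inv.posSemidef.dotProduct_mulVec_nonneg w
        rwa [star_trivial] at this) r q
      exact ⟨h2.1.trans (le_max_left _ _), h2.2.trans (le_max_left _ _)⟩
    · rw [hs.2 i hi, inv_one]
      have h2 : |(1 : Matrix (Fin (n i)) (Fin (n i)) ℝ) r q| ≤ 1 := by
        rw [Matrix.one_apply]
        split_ifs <;> simp
      exact ⟨h2.trans (le_max_right _ _), h2.trans (le_max_right _ _)⟩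
  intro r q
  constructor
  · exact (hb1 s (hmem s fun i r q => (hbound i r q).1) r q).trans (le_max_left _ _)
  · rw [h.inv_eq hρ fun i => (hs.1 i).1]
    exact (hb2 _ (hmem _ fun i r q => (hbound i r q).2) r q).trans (le_max_right _ _)

end

end Ker

end Pool.Agent.V11208.VM
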