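import Pool.Agent.V11208.VM.G

/-! The totally geodesic families of inner products attached to kernels `(v · w)^d` and to the
groups `GL(n, ℝ)`. -/

open Finset Matrix Filter Topology

namespace Pool.Agent.V11208.VM

open Pool.Agent.Y520.Mat Pool.Agent.Y520.SStmt

/-- central matrices -/
def Cen {k : ℕ} (A : Matrix (Fin k) (Fin k) ℝ) : Prop :=
  ∀ B : Matrix (Fin k) (Fin k) ℝ, A * B = B * A

theorem Cen.one {k : ℕ} : Cen (1 : Matrix (Fin k) (Fin k) ℝ) := fun B => by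
  rw [Matrix.one_mul, Matrix.mul_one]

theorem Cen.mul {k : ℕ} {A B : Matrix (Fin k) (Fin k) ℝ} (hA : Cen A) (hB : Cen B) :
    Cen (A * B) := fun D => by
  rw [Matrix.mul_assoc, hB, ← Matrix.mul_assoc, hA, Matrix.mul_assoc]

theorem Cen.inv {k : ℕ} {A : Matrix (Fin k) (Fin k) ℝ} (hA : Cen A) : Cen A⁻¹ := fun D => by
  by_cases h : IsUnit A.det
  · calc A⁻¹ * D = A⁻¹ * D * (A * A⁻¹) := by rw [mul_nonsing_inv _ h, Matrix.mul_one]
      _ = A⁻¹ * (D * A) * A⁻¹ := by noncomm_ring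
      _ = A⁻¹ * (A * D) * A⁻¹ := by rw [hA D]
      _ = (A⁻¹ * A) * D * A⁻¹ := by noncomm_ring
      _ = D * A⁻¹ := by rw [nonsing_inv_mul _ h, Matrix.one_mul]
  · rw [nonsing_inv_apply_not_isUnit _ h, Matrix.zero_mul, Matrix.mul_zero]

theorem Cen.exists_eq {k : ℕ} {A : Matrix (Fin k) (Fin k) ℝ} (hA : Cen A) :
    ∃ c : ℝ, A = c • 1 := by
  obtain ⟨c, hc⟩ := Matrix.mem_range_scalar_of_commute_single (M := A)
    (fun i j _ => (hA _).symm)
  refine ⟨c, ?_⟩
  rw [← hc]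
  ext i j
  simp [Matrix.scalar_apply, Matrix.diagonal_apply, Matrix.one_apply]

variable {ι : Type} [Fintype ι] {n d : ι → ℕ} {m : ℕ}
  {cc : ∀ i, (Fin (n i) → ℝ) → (Fin m → ℝ)} {N : Mt m}

/-- the inner products -/
def YY (ρ : Gm n → Mt m) (N : Mt m) (J : Finset ι) : Set (Mt m) :=
  {S | ∃ s : Gm n, (∀ i, (s i).PosDef) ∧ (∀ i, i ∉ J → Cen (s i)) ∧ (ρ s).det = 1 ∧
    S = ρ s * N⁻¹}

/-- decomposition of a positive definite matrix -/
theorem exists_decomp {k : ℕ} (hk : 0 < k) {A : Matrix (Fin k) (Fin k) ℝ} (hA : A.PosDef) :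
    ∃ (c : ℝ) (σ : Matrix (Fin k) (Fin k) ℝ), 0 < c ∧ σ.PosDef ∧ σ.det = 1 ∧ A = c • σ ∧
      (Cen A → σ = 1) := by
  have hd := hA.det_pos
  set c : ℝ := A.det ^ ((k : ℝ)⁻¹) with hc
  have hc0 : 0 < c := Real.rpow_pos_of_pos hd _
  have hck : c ^ k = A.det := Real.rpow_inv_natCast_pow hd.le hk.ne'
  have h1 : A = c • (c⁻¹ • A) := by rw [smul_smul, mul_inv_cancel₀ hc0.ne', one_smul]
  refine ⟨c, c⁻¹ • A, hc0, hA.smul (inv_pos.2 hc0), ?_, h1, ?_⟩
  · rw [det_smul, Fintype.card_fin, inv_pow, hck, inv_mul_cancel₀ hd.ne']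
  · intro hcen
    obtain ⟨e, he⟩ := hcen.exists_eq
    have : NeZero k := ⟨hk.ne'⟩
    have he0 : 0 < e := by
      have h2 := hA.diag_pos (i := (0 : Fin k))
      rw [he] at h2
      simpa using h2
    have h2 : A.det = e ^ k := by rw [he, det_smul, Fintype.card_fin, det_one, mul_one]
    have h3 : c = e := by
      rw [hc, h2]
      exact Real.pow_rpow_inv_natCast he0.le hk.ne'
    rw [he, h3, smul_smul, inv_mul_cancel₀ he0.ne', one_smul]

namespace Ker

section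

variable (h : Ker n d m cc N) {ρ : Gm n → Mt m} (hρ : ∀ g i v, ρ g *ᵥ cc i v = cc i (g i *ᵥ v))
include h hρ

omit [Fintype ι] in
theorem conj_eq {B : Mt m} {g : Gm n} {e : ι → ℝ} (he : ∀ i, e i * e i = 1)
    (hB : ∀ i v, B *ᵥ cc i v = e i • cc i (g i *ᵥ v)) (s : Gm n) :
    B * (ρ s * N⁻¹) * Bᵀ * N = ρ fun i => g i * s i * (g i)ᵀ := by
  have hBN : ∀ j w, Bᵀ *ᵥ (N *ᵥ cc j w) = e j • (N *ᵥ cc j ((g j)ᵀ *ᵥ w)) := by
    intro j w
    apply h.ext2
    intro i v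
    rw [dotProduct_transpose_mulVec, hB, dotProduct_smul, dotProduct_smul, dotProduct_comm]
    have h1 := h.adj (fun i => (g i)ᵀ) i j v w
    rw [transpose_transpose] at h1
    rw [h1]
    by_cases hij : i = j
    · subst hij
      rfl
    · rw [h.k2 i j hij]
      simp
  apply h.ext
  intro j w
  rw [← mulVec_mulVec, ← mulVec_mulVec, hBN, mulVec_smul, ← mulVec_mulVec, ← mulVec_mulVec,
    mulVec_mulVec _ N⁻¹ N, inv_mul h.pos, one_mulVec, hρ, hB, smul_smul, he, one_smul, hρ,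
    mulVec_mulVec, mulVec_mulVec, Matrix.mul_assoc]

omit [Fintype ι] in
/-- invariance -/
theorem invariant' {J : Finset ι} {B : Mt m} {g : Gm n} {e : ι → ℝ} (he : ∀ i, e i * e i = 1)
    (hdetB : B.det * B.det = 1) (hg : ∀ i, IsUnit (g i)) (hJ : ∀ i, i ∉ J → Cen (g i * (g i)ᵀ))
    (hB : ∀ i v, B *ᵥ cc i v = e i • cc i (g i *ᵥ v)) {S : Mt m} (hS : S ∈ YY ρ N J) :
    B * S * Bᵀ ∈ YY ρ N J := by
  obtain ⟨s, hs, hsJ, hdet, rfl⟩ := hS
  have h1 := h.conj_eq hρ he hB s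
  refine ⟨fun i => g i * s i * (g i)ᵀ, fun i => pd_conj (hs i) (hg i), fun i hi => ?_, ?_, ?_⟩
  · show Cen (g i * s i * (g i)ᵀ)
    have h2 : g i * s i * (g i)ᵀ = s i * (g i * (g i)ᵀ) := by
      rw [← hsJ i hi, Matrix.mul_assoc]
    rw [h2]
    exact (hsJ i hi).mul (hJ i hi)
  · rw [← h1, det_mul, det_mul, det_mul, det_mul, hdet, det_transpose, det_nonsing_inv]
    have h2 := det_ne h.pos
    rw [Ring.inverse_eq_inv']
    field_simp
    nlinarith
  · calc B * (ρ s * N⁻¹) * Bᵀ = B * (ρ s * N⁻¹) * Bᵀ * N * N⁻¹ := by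
          rw [Matrix.mul_assoc _ N, mul_inv h.pos, Matrix.mul_one]
      _ = (ρ fun i => g i * s i * (g i)ᵀ) * N⁻¹ := by rw [h1]

omit [Fintype ι] in
theorem closed' (hc : Continuous ρ) {J : Finset ι} (hd : ∀ i, d i ≠ 0) {S : Mt m}
    (hS : S ∈ closure (YY ρ N J)) (hpS : S.PosDef) : S ∈ YY ρ N J := by
  classical
  have hne : (𝓝[YY ρ N J] S).NeBot := mem_closure_iff_nhdsWithin_neBot.1 hS
  have hid : Tendsto (fun S' : Mt m => S') (𝓝[YY ρ N J] S) (𝓝 S) := nhdsWithin_le_nhds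
  have hex : ∀ S' : Mt m, ∃ s : Gm n, S' ∈ YY ρ N J → (∀ i, (s i).PosDef) ∧
      (∀ i, i ∉ J → Cen (s i)) ∧ (ρ s).det = 1 ∧ S' = ρ s * N⁻¹ := by
    intro S'
    by_cases hS' : S' ∈ YY ρ N J
    · obtain ⟨s, h1⟩ := hS'
      exact ⟨s, fun _ => h1⟩
    · exact ⟨fun _ => 1, fun h => absurd h hS'⟩
  choose s hs using hex
  have hev : ∀ᶠ S' in 𝓝[YY ρ N J] S, (∀ i, (s S' i).PosDef) ∧
      (∀ i, i ∉ J → Cen (s S' i)) ∧ (ρ (s S')).det = 1 ∧ S' = ρ (s S') * N⁻¹ := by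
    filter_upwards [self_mem_nhdsWithin] with S' hS'
    exact hs S' hS'
  have hinvT : Tendsto (fun S' : Mt m => S'⁻¹) (𝓝[YY ρ N J] S) (𝓝 S⁻¹) := by
    have h1 : ContinuousAt (fun S' : Mt m => S'⁻¹) S := continuousAt_inv (det_ne hpS)
    exact h1.tendsto.comp hid
  -- the components converge
  have hcomp : ∀ i, ∃ σ : Matrix (Fin (n i)) (Fin (n i)) ℝ, σ.PosDef ∧
      (i ∉ J → Cen σ) ∧ Tendsto (fun S' => s S' i) (𝓝[YY ρ N J] S) (𝓝 σ) := by
    intro i
    have hq : ∀ v : Fin (n i) → ℝ, Tendsto (fun S' => v ⬝ᵥ (s S' i)⁻¹ *ᵥ v) (𝓝[YY ρ N J] S)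
        (𝓝 ((cc i v ⬝ᵥ S⁻¹ *ᵥ cc i v) ^ ((d i : ℝ)⁻¹))) := by
      intro v
      have h1 : Tendsto (fun S' : Mt m => cc i v ⬝ᵥ S'⁻¹ *ᵥ cc i v) (𝓝[YY ρ N J] S)
          (𝓝 (cc i v ⬝ᵥ S⁻¹ *ᵥ cc i v)) := by
        have h2 : Continuous fun T : Mt m => cc i v ⬝ᵥ T *ᵥ cc i v := by fun_prop
        exact (h2.tendsto _).comp hinvT
      have h3 := h1.rpow_const (p := (d i : ℝ)⁻¹) (Or.inr (by positivity))
      apply h3.congr'
      filter_upwards [hev] with S' hS'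
      have h4 : cc i v ⬝ᵥ S'⁻¹ *ᵥ cc i v = (v ⬝ᵥ (s S' i)⁻¹ *ᵥ v) ^ d i := by
        conv_lhs => rw [hS'.2.2.2]
        exact h.quad_inv hρ hS'.1 i v
      rw [h4]
      apply Real.pow_rpow_inv_natCast _ (hd i)
      have := (hS'.1 i).inv.posSemidef.dotProduct_mulVec_nonneg v
      rwa [star_trivial] at this
    set L : (Fin (n i) → ℝ) → ℝ := fun v => (cc i v ⬝ᵥ S⁻¹ *ᵥ cc i v) ^ ((d i : ℝ)⁻¹) with hL
    set τ : Matrix (Fin (n i)) (Fin (n i)) ℝ := Matrix.of fun a b =>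
      (L (Pi.single a 1 + Pi.single b 1) - L (Pi.single a 1) - L (Pi.single b 1)) / 2 with hτ
    have hent : Tendsto (fun S' => (s S' i)⁻¹) (𝓝[YY ρ N J] S) (𝓝 τ) := by
      refine tendsto_pi_nhds.2 fun a => tendsto_pi_nhds.2 fun b => ?_
      have h1 := (((hq (Pi.single a 1 + Pi.single b 1)).sub (hq (Pi.single a 1))).sub
        (hq (Pi.single b 1))).div_const 2
      apply h1.congr'
      filter_upwards [hev] with S' hS'
      have hsym := symd (hS'.1 i).inv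
      have h2 : (s S' i)⁻¹ b a = (s S' i)⁻¹ a b := by
        conv_lhs => rw [← hsym]
        rfl
      rw [mulVec_add, dotProduct_add, add_dotProduct, add_dotProduct]
      have h3 : ∀ a b : Fin (n i), (Pi.single a 1 : Fin (n i) → ℝ) ⬝ᵥ
          (s S' i)⁻¹ *ᵥ (Pi.single b 1) = (s S' i)⁻¹ a b := by
        intro a b
        rw [mulVec_single_one, single_one_dotProduct]
        rfl
      rw [h3, h3, h3, h3, h2]
      ring
    have hτsym : τ.IsHermitian := by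
      have h1 : Tendsto (fun S' => ((s S' i)⁻¹)ᵀ) (𝓝[YY ρ N J] S) (𝓝 τᵀ) :=
        ((Continuous.matrix_transpose continuous_id).tendsto τ).comp hent
      have h2 : τᵀ = τ := by
        refine tendsto_nhds_unique h1 (hent.congr' ?_)
        filter_upwards [hev] with S' hS'
        exact (symd (hS'.1 i).inv).symm
      rw [IsHermitian, conjTranspose_eq_transpose_of_trivial, h2]
    have hτpd : τ.PosDef := by
      refine PosDef.of_dotProduct_mulVec_pos hτsym fun v hv => ?_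
      rw [star_trivial]
      have h2 : Continuous fun T : Matrix (Fin (n i)) (Fin (n i)) ℝ => v ⬝ᵥ T *ᵥ v := by fun_prop
      have h3 := tendsto_nhds_unique ((h2.tendsto τ).comp hent) (hq v)
      rw [h3]
      apply Real.rpow_pos_of_pos
      have := hpS.inv.dotProduct_mulVec_pos (h.cc_ne hv)
      rwa [star_trivial] at this
    have hlim : Tendsto (fun S' => s S' i) (𝓝[YY ρ N J] S) (𝓝 τ⁻¹) := by
      have h1 : ContinuousAt (fun T : Matrix (Fin (n i)) (Fin (n i)) ℝ => T⁻¹) τ :=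
        continuousAt_inv (det_ne hτpd)
      have h2 := h1.tendsto.comp hent
      apply h2.congr'
      filter_upwards [hev] with S' hS'
      exact nonsing_inv_nonsing_inv _ (det_unit (hS'.1 i))
    refine ⟨τ⁻¹, hτpd.inv, fun hi B => ?_, hlim⟩
    have h1 : Tendsto (fun S' => s S' i * B) (𝓝[YY ρ N J] S) (𝓝 (τ⁻¹ * B)) :=
      ((continuous_id.matrix_mul continuous_const).tendsto τ⁻¹).comp hlim
    have h2 : Tendsto (fun S' => B * s S' i) (𝓝[YY ρ N J] S) (𝓝 (B * τ⁻¹)) :=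
      ((continuous_const.matrix_mul continuous_id).tendsto τ⁻¹).comp hlim
    refine tendsto_nhds_unique h1 (h2.congr' ?_)
    filter_upwards [hev] with S' hS'
    exact (hS'.2.1 i hi B).symm
  choose σ hσ1 hσ3 hσ4 using hcomp
  have h1 : Tendsto s (𝓝[YY ρ N J] S) (𝓝 σ) := tendsto_pi_nhds.2 hσ4
  refine ⟨σ, hσ1, hσ3, ?_, ?_⟩
  · have h2 : Tendsto (fun S' => (ρ (s S')).det) (𝓝[YY ρ N J] S) (𝓝 (ρ σ).det) :=
      ((Continuous.matrix_det hc).tendsto σ).comp h1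
    refine tendsto_nhds_unique h2 (tendsto_const_nhds.congr' ?_)
    filter_upwards [hev] with S' hS'
    exact hS'.2.2.1.symm
  · have h2 : Tendsto (fun S' => ρ (s S') * N⁻¹) (𝓝[YY ρ N J] S) (𝓝 (ρ σ * N⁻¹)) := by
      have h3 : Continuous fun g : Gm n => ρ g * N⁻¹ := hc.matrix_mul continuous_const
      exact (h3.tendsto σ).comp h1
    refine tendsto_nhds_unique hid (h2.congr' ?_)
    filter_upwards [hev] with S' hS'
    exact hS'.2.2.2.symm

omit [Fintype ι] in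
theorem totallyGeodesic' (hc : Continuous ρ) {J : Finset ι} (hd : ∀ i, d i ≠ 0) :
    TotallyGeodesic (YY ρ N J) := by
  classical
  refine ⟨⟨ρ (fun _ => 1) * N⁻¹, fun _ => 1, fun i => PosDef.one, fun _ _ => Cen.one, ?_, rfl⟩,
    ?_, fun S hS hp => h.closed' hρ hc hd hS hp, ?_, ?_⟩
  · rw [h.rho_one hρ, det_one]
  · rintro _ ⟨s, hs, -, -, rfl⟩
    exact h.posDef hρ hs
  · rintro _ ⟨s, hs, hsJ, hsd, rfl⟩ _ ⟨t, ht, htJ, htd, rfl⟩
    have hinv : (ρ fun i => (s i)⁻¹).det = 1 := by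
      have h1 := congrArg det (h.rho_inv hρ hs)
      rwa [det_mul, hsd, one_mul, det_one] at h1
    refine ⟨fun i => t i * (s i)⁻¹ * t i, fun i => ?_, fun i hi => ?_, ?_, ?_⟩
    · have := pd_conj (hs i).inv (ht i).isUnit
      rwa [symd (ht i)] at this
    · exact ((htJ i hi).mul (hsJ i hi).inv).mul (htJ i hi)
    · rw [h.rho_mul hρ, h.rho_mul hρ, det_mul, det_mul, htd, hinv]
      norm_num
    · rw [h.inv_eq hρ hs, h.rho_mul hρ, h.rho_mul hρ]
      calc ρ t * N⁻¹ * (N * ρ fun i => (s i)⁻¹) * (ρ t * N⁻¹) =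
          ρ t * (N⁻¹ * N) * (ρ fun i => (s i)⁻¹) * ρ t * N⁻¹ := by noncomm_ring
        _ = (ρ t * ρ fun i => (s i)⁻¹) * ρ t * N⁻¹ := by rw [inv_mul h.pos, Matrix.mul_one]
  · rintro _ ⟨s, hs, hsJ, hsd, rfl⟩ _ ⟨t, ht, htJ, htd, rfl⟩
    have hex : ∀ i, ∃ G : Matrix (Fin (n i)) (Fin (n i)) ℝ, G.PosDef ∧
        (i ∉ J → Cen G) ∧ G * (s i)⁻¹ * G = t i := by
      intro i
      obtain ⟨G, hG, hGT⟩ := exists_mean (hs i) (ht i)
      refine ⟨G, hG, fun hi => ?_, hGT⟩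
      obtain ⟨a, ha⟩ := (hsJ i hi).exists_eq
      obtain ⟨b, hb⟩ := (htJ i hi).exists_eq
      -- `G` is the positive definite square root of a scalar
      have h1 : G * G = s i * t i := by
        calc G * G = G * ((s i)⁻¹ * s i) * G := by
              rw [inv_mul (hs i), Matrix.mul_one]
          _ = G * (s i)⁻¹ * (s i * G) := by noncomm_ring
          _ = G * (s i)⁻¹ * (G * s i) := by rw [hsJ i hi G]
          _ = (G * (s i)⁻¹ * G) * s i := by noncomm_ring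
          _ = t i * s i := by rw [hGT]
          _ = s i * t i := (hsJ i hi (t i)).symm
      rcases Nat.eq_zero_or_pos (n i) with hn | hn
      · have : IsEmpty (Fin (n i)) := by
          rw [hn]
          infer_instance
        exact fun B => Subsingleton.elim _ _
      have : NeZero (n i) := ⟨hn.ne'⟩
      have ha0 : 0 < a := by
        have h2 := (hs i).diag_pos (i := (0 : Fin (n i)))
        rw [ha] at h2
        simpa using h2
      have hb0 : 0 < b := by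
        have h2 := (ht i).diag_pos (i := (0 : Fin (n i)))
        rw [hb] at h2
        simpa using h2
      set c : ℝ := Real.sqrt (a * b) with hcdef
      have hc0 : 0 < c := Real.sqrt_pos.2 (mul_pos ha0 hb0)
      have hcc : c * c = a * b := Real.mul_self_sqrt (mul_pos ha0 hb0).le
      have h2 : G = c • 1 := by
        have h3 : (c • (1 : Matrix (Fin (n i)) (Fin (n i)) ℝ)).PosDef := PosDef.one.smul hc0
        have h4 : G * (1 : Matrix (Fin (n i)) (Fin (n i)) ℝ) * G =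
            (c • (1 : Matrix (Fin (n i)) (Fin (n i)) ℝ)) * 1 * (c • 1) := by
          rw [Matrix.mul_one, Matrix.mul_one, h1, ha, hb]
          rw [smul_mul_smul_comm, smul_mul_smul_comm, hcc]
        exact mean_unique hG h3 PosDef.one h4
      rw [h2]
      intro B
      simp
    choose G hG1 hG3 hG4 using hex
    have hinv : (ρ fun i => (s i)⁻¹).det = 1 := by
      have h1 := congrArg det (h.rho_inv hρ hs)
      rwa [det_mul, hsd, one_mul, det_one] at h1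
    have h5 : t = fun i => G i * (s i)⁻¹ * G i := (funext hG4).symm
    refine ⟨ρ G * N⁻¹, ⟨G, hG1, hG3, ?_, rfl⟩, ?_⟩
    · have h6 : 0 < (ρ G * N⁻¹).det := (h.posDef hρ hG1).det_pos
      rw [det_mul] at h6
      have h7 : 0 < (N⁻¹).det := h.pos.inv.det_pos
      have h8 : 0 < (ρ G).det := (pos_iff_pos_of_mul_pos h6).2 h7
      have h9 : (ρ G).det * (ρ G).det = 1 := by
        have h10 := htd
        rw [h5, h.rho_mul hρ, h.rho_mul hρ, det_mul, det_mul, hinv, mul_one] at h10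
        exact h10
      nlinarith
    · rw [h.inv_eq hρ hs, h5, h.rho_mul hρ, h.rho_mul hρ]
      calc ρ G * N⁻¹ * (N * ρ fun i => (s i)⁻¹) * (ρ G * N⁻¹) =
          ρ G * (N⁻¹ * N) * (ρ fun i => (s i)⁻¹) * ρ G * N⁻¹ := by noncomm_ring
        _ = (ρ G * ρ fun i => (s i)⁻¹) * ρ G * N⁻¹ := by rw [inv_mul h.pos, Matrix.mul_one]

omit h hρ in
theorem bounded_of (hc : Continuous ρ) (T : ℝ) : ∃ b : ℝ, ∀ g : Gm n, (∀ i r q, |g i r q| ≤ T) →
    ∀ r q, |(ρ g * N⁻¹) r q| ≤ b ∧ |(N * ρ g) r q| ≤ b := by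
  classical
  set K : Set (Gm n) := Set.pi Set.univ fun i => Set.pi Set.univ fun _ => Set.pi Set.univ fun _ =>
    Set.Icc (-T) T with hK
  have hKc : IsCompact K :=
    isCompact_univ_pi fun i => isCompact_univ_pi fun _ => isCompact_univ_pi fun _ => isCompact_Icc
  have hmem : ∀ g : Gm n, (∀ i r q, |g i r q| ≤ T) → g ∈ K := by
    intro g hg i _ r _ q _
    exact abs_le.1 (hg i r q)
  obtain ⟨b1, hb1⟩ : ∃ b, ∀ g ∈ K, ∀ r q, |(ρ g * N⁻¹) r q| ≤ b := by
    have h2 : ∀ p : Fin m × Fin m, ∃ b, ∀ g ∈ K, ‖(ρ g * N⁻¹) p.1 p.2‖ ≤ b := fun p =>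
      hKc.exists_bound_of_continuousOn
        (Continuous.matrix_elem (hc.matrix_mul continuous_const) p.1 p.2).continuousOn
    choose b hb using h2
    refine ⟨∑ p, |b p|, fun g hg r q => ?_⟩
    refine (hb (r, q) g hg).trans ((le_abs_self _).trans ?_)
    exact Finset.single_le_sum (f := fun p => |b p|) (fun p _ => abs_nonneg _) (Finset.mem_univ _)
  obtain ⟨b2, hb2⟩ : ∃ b, ∀ g ∈ K, ∀ r q, |(N * ρ g) r q| ≤ b := by
    have h2 : ∀ p : Fin m × Fin m, ∃ b, ∀ g ∈ K, ‖(N * ρ g) p.1 p.2‖ ≤ b := fun p =>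
      hKc.exists_bound_of_continuousOn
        (Continuous.matrix_elem (continuous_const.matrix_mul hc) p.1 p.2).continuousOn
    choose b hb using h2
    refine ⟨∑ p, |b p|, fun g hg r q => ?_⟩
    refine (hb (r, q) g hg).trans ((le_abs_self _).trans ?_)
    exact Finset.single_le_sum (f := fun p => |b p|) (fun p _ => abs_nonneg _) (Finset.mem_univ _)
  exact ⟨max b1 b2, fun g hg r q => ⟨(hb1 g (hmem g hg) r q).trans (le_max_left _ _),
    (hb2 g (hmem g hg) r q).trans (le_max_right _ _)⟩⟩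

end

end Ker

end Pool.Agent.V11208.VM
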