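import Pool.Agent.V11208.VM.B3

/-! Stability for the families of inner products attached to products of groups `GL(n, ℝ)`. -/

open Finset Matrix Filter Topology

namespace Pool.Agent.V11208.VM

open Pool.Agent.Y520.Mat Pool.Agent.Y520.SStmt

theorem le_one_add_pow {c : ℝ} (hc : 0 < c) {d : ℕ} (hd : d ≠ 0) : c ≤ 1 + c ^ d := by
  rcases le_total c 1 with h | h
  · have := pow_pos hc d
    linarith
  · have := le_self_pow₀ h hd
    linarith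

theorem quad_le {k : ℕ} {A : Matrix (Fin k) (Fin k) ℝ} {T : ℝ} (hA : ∀ r q, |A r q| ≤ T)
    (w : Fin k → ℝ) : w ⬝ᵥ A *ᵥ w ≤ T * ∑ r, ∑ q, |w r| * |w q| := by
  rw [quad_eq, Finset.mul_sum]
  refine Finset.sum_le_sum fun r _ => ?_
  rw [Finset.mul_sum]
  refine Finset.sum_le_sum fun q _ => ?_
  have h1 : w r * A r q * w q ≤ |w r| * |A r q| * |w q| := by
    rw [← abs_mul, ← abs_mul]
    exact le_abs_self _
  have h2 : |w r| * |A r q| * |w q| ≤ |w r| * T * |w q| := by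
    apply mul_le_mul_of_nonneg_right _ (abs_nonneg _)
    exact mul_le_mul_of_nonneg_left (hA r q) (abs_nonneg _)
  calc w r * A r q * w q ≤ |w r| * T * |w q| := h1.trans h2
    _ = T * (|w r| * |w q|) := by ring

variable {ι : Type} [Fintype ι] {n d : ι → ℕ} {m : ℕ}
  {cc : ∀ i, (Fin (n i) → ℝ) → (Fin m → ℝ)} {N : Mt m}

/-- upper bounds for the scalar parts -/
theorem scalar_bound {k e : ℕ} (he : e ≠ 0) (f : (Fin k → ℝ) → ℝ) (hf : ∃ w, f w ≠ 0)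
    {Q : Matrix (Fin k) (Fin k) ℝ → Prop}
    (hb : ∃ T : ℝ, ∀ s : Matrix (Fin k) (Fin k) ℝ, s.PosDef → s.det = 1 → Q s →
      (∀ w, f w ^ 2 ≤ 1 * (w ⬝ᵥ s⁻¹ *ᵥ w) ^ e) → ∀ r q, |s r q| ≤ T ∧ |s⁻¹ r q| ≤ T)
    {C : ℝ} (hC : 0 ≤ C) :
    ∃ L : ℝ, ∀ (c : ℝ) (s : Matrix (Fin k) (Fin k) ℝ), 0 < c → s.PosDef → s.det = 1 → Q s →
      (∀ w, f w ^ 2 ≤ C * (c⁻¹ * (w ⬝ᵥ s⁻¹ *ᵥ w)) ^ e) → c ≤ L := by
  obtain ⟨w, hw⟩ := hf
  obtain ⟨T, hT⟩ := hb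
  set q : ℝ := |T| * ∑ r, ∑ q, |w r| * |w q| with hq
  have hq0 : 0 ≤ q := by positivity
  have hfw : 0 < f w ^ 2 := by positivity
  refine ⟨1 + (C + C * q ^ e / f w ^ 2), fun c s hc hs hdet hQ hle => ?_⟩
  have h0 : ∀ w, 0 ≤ w ⬝ᵥ s⁻¹ *ᵥ w := fun w => by
    have := hs.inv.posSemidef.dotProduct_mulVec_nonneg w
    rwa [star_trivial] at this
  have hce : 0 < c ^ e := pow_pos hc e
  refine (le_one_add_pow hc he).trans (add_le_add le_rfl ?_)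
  rcases le_or_gt (C * (c⁻¹) ^ e) 1 with h1 | h1
  · have h2 : ∀ w, f w ^ 2 ≤ 1 * (w ⬝ᵥ s⁻¹ *ᵥ w) ^ e := by
      intro w
      refine (hle w).trans ?_
      rw [mul_pow, ← mul_assoc]
      exact mul_le_mul_of_nonneg_right h1 (pow_nonneg (h0 w) e)
    have h3 := hT s hs hdet hQ h2
    have h4 : w ⬝ᵥ s⁻¹ *ᵥ w ≤ q := quad_le (fun r q => (h3 r q).2.trans (le_abs_self T)) w
    have h5 : f w ^ 2 ≤ C * (c⁻¹) ^ e * q ^ e := by
      refine (hle w).trans ?_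
      rw [mul_pow, ← mul_assoc]
      exact mul_le_mul_of_nonneg_left (pow_le_pow_left₀ (h0 w) h4 e) (by positivity)
    have h6 : c ^ e * f w ^ 2 ≤ C * q ^ e := by
      have h7 := mul_le_mul_of_nonneg_left h5 hce.le
      have h8 : c ^ e * (C * (c⁻¹) ^ e * q ^ e) = C * q ^ e := by
        rw [inv_pow]
        field_simp
      linarith
    have h9 : c ^ e ≤ C * q ^ e / f w ^ 2 := by
      rw [le_div_iff₀ hfw]
      exact h6
    linarith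
  · have h2 : c ^ e < C := by
      have h3 := mul_lt_mul_of_pos_left h1 hce
      have h4 : c ^ e * (C * (c⁻¹) ^ e) = C := by
        rw [inv_pow]
        field_simp
      linarith
    have h3 : 0 ≤ C * q ^ e / f w ^ 2 := by positivity
    linarith

/-- lower bounds for the scalar parts -/
theorem scalar_lower {ω : Fin m → ι} (hω : Function.Surjective ω) (d : ι → ℕ) {L : ℝ} (hL : 1 ≤ L)
    {c : ι → ℝ} (hc0 : ∀ i, 0 < c i) (hc : ∀ i, c i ≤ L) (hprod : ∏ p, c (ω p) ^ d (ω p) = 1)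
    (i : ι) : (c i)⁻¹ ^ d i ≤ L ^ ∑ p, d (ω p) := by
  classical
  obtain ⟨p, hp⟩ := hω i
  rw [← Finset.mul_prod_erase Finset.univ _ (Finset.mem_univ p), hp] at hprod
  have h1 : ∏ x ∈ Finset.univ.erase p, c (ω x) ^ d (ω x) ≤ L ^ ∑ p, d (ω p) := by
    calc ∏ x ∈ Finset.univ.erase p, c (ω x) ^ d (ω x)
        ≤ ∏ x ∈ Finset.univ.erase p, L ^ d (ω x) :=
          Finset.prod_le_prod (fun x _ => pow_nonneg (hc0 _).le _)
            fun x _ => pow_le_pow_left₀ (hc0 _).le (hc _) _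
      _ = L ^ ∑ x ∈ Finset.univ.erase p, d (ω x) := Finset.prod_pow_eq_pow_sum _ _ _
      _ ≤ L ^ ∑ p, d (ω p) := by
          apply pow_le_pow_right₀ hL
          exact Finset.sum_le_sum_of_subset (Finset.erase_subset _ _)
  have hci : 0 < c i ^ d i := pow_pos (hc0 i) _
  have h2 : (c i)⁻¹ ^ d i = ∏ x ∈ Finset.univ.erase p, c (ω x) ^ d (ω x) := by
    rw [inv_pow]
    exact (eq_inv_of_mul_eq_one_right hprod).symm
  rw [h2]
  exact h1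

namespace Ker

variable (h : Ker n d m cc N) {ρ : Gm n → Mt m} (hρ : ∀ g i v, ρ g *ᵥ cc i v = cc i (g i *ᵥ v))
include h hρ

/-- stability from bounds -/
theorem stable' (hn : ∀ i, 0 < n i) (hd : ∀ i, d i ≠ 0) (hc : Continuous ρ) {J : Finset ι}
    {a : Fin m → ℝ} (hw : ∀ i, ∃ w, a ⬝ᵥ cc i w ≠ 0)
    (hb : ∀ i ∈ J, ∀ C : ℝ, ∃ T : ℝ, ∀ s : Matrix (Fin (n i)) (Fin (n i)) ℝ, s.PosDef → s.det = 1 →
      (∀ w, (a ⬝ᵥ cc i w) ^ 2 ≤ C * (w ⬝ᵥ s⁻¹ *ᵥ w) ^ d i) →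
      ∀ r q, |s r q| ≤ T ∧ |s⁻¹ r q| ≤ T) : IsStable (YY ρ N J) a := by
  classical
  have hb' : ∀ i, ∀ C : ℝ, ∃ T : ℝ, ∀ s : Matrix (Fin (n i)) (Fin (n i)) ℝ, s.PosDef → s.det = 1 →
      (i ∉ J → s = 1) → (∀ w, (a ⬝ᵥ cc i w) ^ 2 ≤ C * (w ⬝ᵥ s⁻¹ *ᵥ w) ^ d i) →
      ∀ r q, |s r q| ≤ T ∧ |s⁻¹ r q| ≤ T := by
    intro i C
    by_cases hi : i ∈ J
    · obtain ⟨T, hT⟩ := hb i hi C
      exact ⟨T, fun s h1 h2 _ h3 => hT s h1 h2 h3⟩
    · refine ⟨1, fun s _ _ h1 _ r q => ?_⟩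
      rw [h1 hi, inv_one]
      have h2 : |(1 : Matrix (Fin (n i)) (Fin (n i)) ℝ) r q| ≤ 1 := by
        rw [Matrix.one_apply]
        split_ifs <;> simp
      exact ⟨h2, h2⟩
  obtain ⟨ω, hω, hdet⟩ := h.det_rho hρ hn
  intro C
  have h1 : ∀ i, ∃ L : ℝ, ∀ (c : ℝ) (s : Matrix (Fin (n i)) (Fin (n i)) ℝ), 0 < c → s.PosDef →
      s.det = 1 → (i ∉ J → s = 1) →
      (∀ w, (a ⬝ᵥ cc i w) ^ 2 ≤ |C| * (c⁻¹ * (w ⬝ᵥ s⁻¹ *ᵥ w)) ^ d i) → c ≤ L := fun i =>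
    scalar_bound (hd i) (fun w => a ⬝ᵥ cc i w) (hw i) (Q := fun s => i ∉ J → s = 1)
      (hb' i 1) (abs_nonneg C)
  choose L hL using h1
  set L0 : ℝ := 1 + ∑ i, |L i| with hL0
  have hL01 : 1 ≤ L0 := by
    have : 0 ≤ ∑ i, |L i| := Finset.sum_nonneg fun i _ => abs_nonneg _
    linarith
  have hLL : ∀ i, L i ≤ L0 := by
    intro i
    have h2 := Finset.single_le_sum (f := fun i => |L i|) (fun i _ => abs_nonneg _)
      (Finset.mem_univ i)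
    have h3 := le_abs_self (L i)
    have h4 : |L i| ≤ ∑ i, |L i| := h2
    linarith
  set D : ℕ := ∑ p, d (ω p) with hD
  choose T hT using fun i => hb' i (|C| * L0 ^ D)
  set Θ : ℝ := ∑ i, (L0 + 1 + L0 ^ D) * |T i| with hΘ
  obtain ⟨b, hbb⟩ := Ker.bounded_of (N := N) hc Θ
  refine ⟨b, ?_⟩
  rintro _ ⟨s, hs, hsJ, hsd, rfl⟩ hC
  have hpd := h.posDef hρ hs
  have hquad : a ⬝ᵥ (ρ s * N⁻¹) *ᵥ a ≤ |C| := by
    rw [quad_eq]
    exact hC.trans (le_abs_self C)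
  choose c σ hc0 hσ hσd hsσ hσJ using fun i => exists_decomp (hn i) (hs i)
  have hσ1 : ∀ i, i ∉ J → σ i = 1 := fun i hi => hσJ i (hsJ i hi)
  have hsinv : ∀ i, (s i)⁻¹ = (c i)⁻¹ • (σ i)⁻¹ := by
    intro i
    apply inv_eq_right_inv
    conv_lhs => rw [hsσ i]
    rw [smul_mul_smul_comm, mul_inv_cancel₀ (hc0 i).ne', mul_inv (hσ i), one_smul]
  have hcs : ∀ i w, (a ⬝ᵥ cc i w) ^ 2 ≤ |C| * ((c i)⁻¹ * (w ⬝ᵥ (σ i)⁻¹ *ᵥ w)) ^ d i := by
    intro i w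
    have h3 := cs hpd a (cc i w)
    rw [h.quad_inv hρ hs, hsinv i, smul_mulVec, dotProduct_smul, smul_eq_mul] at h3
    refine h3.trans (mul_le_mul_of_nonneg_right hquad ?_)
    apply pow_nonneg
    have := (hσ i).inv.posSemidef.dotProduct_mulVec_nonneg w
    rw [star_trivial] at this
    exact mul_nonneg (inv_pos.2 (hc0 i)).le this
  have hcL : ∀ i, c i ≤ L0 := fun i =>
    (hL i (c i) (σ i) (hc0 i) (hσ i) (hσd i) (hσ1 i) (hcs i)).trans (hLL i)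
  have hprod : ∏ p, c (ω p) ^ d (ω p) = 1 := by
    rw [← hdet c σ hσ hσd, ← hsd]
    congr 2
    exact (funext hsσ).symm
  have hlow : ∀ i, (c i)⁻¹ ^ d i ≤ L0 ^ D := fun i => scalar_lower hω d hL01 hc0 hcL hprod i
  have hcinv : ∀ i, (c i)⁻¹ ≤ 1 + L0 ^ D := fun i =>
    (le_one_add_pow (inv_pos.2 (hc0 i)) (hd i)).trans (add_le_add le_rfl (hlow i))
  have hTT : ∀ i r q, |σ i r q| ≤ T i ∧ |(σ i)⁻¹ r q| ≤ T i := by
    intro i
    apply hT i (σ i) (hσ i) (hσd i) (hσ1 i)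
    intro w
    refine (hcs i w).trans ?_
    rw [mul_pow, ← mul_assoc]
    apply mul_le_mul_of_nonneg_right
    · exact mul_le_mul_of_nonneg_left (hlow i) (abs_nonneg C)
    · apply pow_nonneg
      have := (hσ i).inv.posSemidef.dotProduct_mulVec_nonneg w
      rwa [star_trivial] at this
  have hLD : 0 ≤ L0 ^ D := pow_nonneg (by linarith) _
  have hΘi : ∀ i, (L0 + 1 + L0 ^ D) * |T i| ≤ Θ := fun i =>
    Finset.single_le_sum (f := fun i => (L0 + 1 + L0 ^ D) * |T i|)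
      (fun i _ => mul_nonneg (by linarith) (abs_nonneg _)) (Finset.mem_univ i)
  have hb1 : ∀ i r q, |s i r q| ≤ Θ := by
    intro i r q
    rw [hsσ i, Matrix.smul_apply, smul_eq_mul, abs_mul, abs_of_pos (hc0 i)]
    refine le_trans ?_ (hΘi i)
    apply mul_le_mul _ ((hTT i r q).1.trans (le_abs_self _)) (abs_nonneg _) (by linarith)
    have := hcL i
    linarith
  have hb2 : ∀ i r q, |(s i)⁻¹ r q| ≤ Θ := by
    intro i r q
    rw [hsinv i, Matrix.smul_apply, smul_eq_mul, abs_mul, abs_of_pos (inv_pos.2 (hc0 i))]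
    refine le_trans ?_ (hΘi i)
    apply mul_le_mul _ ((hTT i r q).2.trans (le_abs_self _)) (abs_nonneg _) (by linarith)
    have := hcinv i
    linarith
  intro r q
  refine ⟨(hbb s hb1 r q).1, ?_⟩
  rw [h.inv_eq hρ hs]
  exact (hbb _ hb2 r q).2

end Ker

end Pool.Agent.V11208.VM
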