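import Pool.Agent.V11208.VM.D
import Pool.Agent.Y520.MinX

/-! Forms of degree `d > n` without real singular points are stable under `SL(n, ℝ)`, quantitatively. -/

open MvPolynomial Finset Matrix

namespace Pool.Agent.V11208.VM

/-- an eigenvector for the largest eigenvalue of a positive definite matrix of determinant one -/
theorem eig {n : ℕ} {s : Matrix (Fin (n + 1)) (Fin (n + 1)) ℝ} (hs : s.PosDef) (hdet : s.det = 1) :
    ∃ (t : ℝ) (u : Fin (n + 1) → ℝ), 1 ≤ t ∧ u ⬝ᵥ u = 1 ∧ s⁻¹ *ᵥ u = t⁻¹ • u ∧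
      (∀ i j, |s i j| ≤ (n + 1) ^ 2 * t) ∧
      (∀ i j, |s⁻¹ i j| ≤ (n.factorial : ℝ) * ((n + 1) ^ 2 * t) ^ n) := by
  classical
  obtain ⟨j0, hj0⟩ := Finite.exists_max hs.1.eigenvalues
  set t := hs.1.eigenvalues j0 with ht
  have hpos : ∀ j, 0 < hs.1.eigenvalues j := hs.eigenvalues_pos
  have ht0 : 0 < t := hpos j0
  have hprod : ∏ i, hs.1.eigenvalues i = 1 := by
    have h1 := hs.1.det_eq_prod_eigenvalues
    rw [hdet] at h1
    simpa using h1.symm
  have ht1 : 1 ≤ t := by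
    by_contra hlt
    push Not at hlt
    have h1 : ∏ i, hs.1.eigenvalues i ≤ ∏ _i : Fin (n + 1), t :=
      Finset.prod_le_prod (fun i _ => (hpos i).le) fun i _ => hj0 i
    rw [hprod, Finset.prod_const, Finset.card_univ, Fintype.card_fin] at h1
    have h2 : t ^ (n + 1) < 1 := pow_lt_one₀ ht0.le hlt (Nat.succ_ne_zero n)
    linarith
  set u : Fin (n + 1) → ℝ := ⇑(hs.1.eigenvectorBasis j0) with hu
  have hsu : s *ᵥ u = t • u := hs.1.mulVec_eigenvectorBasis j0
  have huu : u ⬝ᵥ u = 1 := by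
    have h1 := hs.1.eigenvectorBasis.orthonormal.1 j0
    have h2 : inner ℝ (hs.1.eigenvectorBasis j0) (hs.1.eigenvectorBasis j0) = (1 : ℝ) := by
      rw [real_inner_self_eq_norm_sq, h1]
      norm_num
    rw [EuclideanSpace.inner_eq_star_dotProduct] at h2
    simpa using h2
  have hinv : s⁻¹ *ᵥ u = t⁻¹ • u := by
    have h1 : s⁻¹ *ᵥ (s *ᵥ u) = u := by
      rw [mulVec_mulVec, Pool.Agent.Y520.Mat.inv_mul hs, one_mulVec]
    rw [hsu, mulVec_smul] at h1
    calc s⁻¹ *ᵥ u = t⁻¹ • (t • (s⁻¹ *ᵥ u)) := by rw [smul_smul, inv_mul_cancel₀ ht0.ne', one_smul]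
      _ = t⁻¹ • u := by rw [h1]
  have hent : ∀ i j, |s i j| ≤ (n + 1) ^ 2 * t := by
    intro i j
    have h1 := Pool.Agent.Y520.Mat.entry_le (Q := (1 : Matrix (Fin (n + 1)) (Fin (n + 1)) ℝ))
      PosDef.one hs.posSemidef i j
    rw [inv_one, Matrix.one_mul, trace_one, Fintype.card_fin] at h1
    have h2 : s.trace ≤ (n + 1) * t := by
      have h3 := hs.1.trace_eq_sum_eigenvalues
      rw [h3]
      have h4 : ∑ i, hs.1.eigenvalues i ≤ ∑ _i : Fin (n + 1), t := Finset.sum_le_sum fun i _ => hj0 i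
      rw [Finset.sum_const, Finset.card_univ, Fintype.card_fin, nsmul_eq_mul] at h4
      simpa using h4
    refine h1.trans ?_
    push_cast
    nlinarith [h2, ht0]
  refine ⟨t, u, ht1, huu, hinv, hent, ?_⟩
  intro i j
  have h1 : s⁻¹ = adjugate s := by
    rw [Matrix.inv_def, hdet]
    simp
  rw [h1, adjugate_fin_succ_eq_det_submatrix, abs_mul, abs_pow, abs_neg, abs_one, one_pow, one_mul]
  have h2 := det_le (A := s.submatrix j.succAbove i.succAbove) (abv := AbsoluteValue.abs)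
    (x := ((n : ℝ) + 1) ^ 2 * t) (fun a b => hent _ _)
  simpa [nsmul_eq_mul] using h2

theorem continuous_eval {n : ℕ} (F : MvPolynomial (Fin n) ℝ) :
    Continuous fun v : Fin n → ℝ => eval v F := MvPolynomial.continuous_eval F

/-- derivative along a coordinate direction -/
theorem hasDerivAt_line {n : ℕ} (F : MvPolynomial (Fin n) ℝ) (u : Fin n → ℝ) (j : Fin n) (x : ℝ) :
    HasDerivAt (fun x : ℝ => eval (u + x • Pi.single j 1) F)
      (eval (u + x • Pi.single j 1) (pderiv j F)) x := by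
  have h1 := hasFDerivAt_eval F (u + x • Pi.single j 1)
  have h2 : HasDerivAt (fun x : ℝ => u + x • (Pi.single j 1 : Fin n → ℝ)) (Pi.single j 1) x := by
    have := ((hasDerivAt_id x).smul_const (Pi.single j 1 : Fin n → ℝ)).const_add u
    simpa using this
  have h3 := h1.comp_hasDerivAt x h2
  have h4 : (∑ l, eval (u + x • Pi.single j 1) (pderiv l F) •
      (ContinuousLinearMap.proj l : (Fin n → ℝ) →L[ℝ] ℝ)) (Pi.single j 1) =
      eval (u + x • Pi.single j 1) (pderiv j F) := by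
    simp [Pi.single_apply]
  rw [h4] at h3
  exact h3

theorem norm_le_one_of_dot {n : ℕ} {u : Fin n → ℝ} (hu : u ⬝ᵥ u = 1) (j : Fin n) : |u j| ≤ 1 := by
  have h1 : u j * u j ≤ u ⬝ᵥ u := by
    unfold dotProduct
    exact Finset.single_le_sum (f := fun i => u i * u i) (fun i _ => mul_self_nonneg _)
      (Finset.mem_univ j)
  rw [hu] at h1
  rw [← sq_le_one_iff_abs_le_one, sq]
  exact h1

/-- second order Taylor estimate, uniform in the unit sphere -/
theorem taylor {n : ℕ} (F : MvPolynomial (Fin n) ℝ) :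
    ∃ M : ℝ, 0 ≤ M ∧ ∀ (u : Fin n → ℝ), u ⬝ᵥ u = 1 → ∀ (j : Fin n) (ε : ℝ), 0 ≤ ε → ε ≤ 1 →
      |eval (u + ε • Pi.single j 1) F - eval u F - ε * eval u (pderiv j F)| ≤ M * ε ^ 2 := by
  have hK : IsCompact (Metric.closedBall (0 : Fin n → ℝ) 2) := isCompact_closedBall _ _
  have h1 : ∀ j : Fin n, ∃ C, ∀ v ∈ Metric.closedBall (0 : Fin n → ℝ) 2,
      ‖eval v (pderiv j (pderiv j F))‖ ≤ C := fun j =>
    hK.exists_bound_of_continuousOn (continuous_eval _).continuousOn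
  choose C hC using h1
  refine ⟨∑ j, |C j|, Finset.sum_nonneg fun j _ => abs_nonneg _, ?_⟩
  intro u hu j ε h0 hε1
  have hM : |C j| ≤ ∑ j, |C j| :=
    Finset.single_le_sum (f := fun j => |C j|) (fun j _ => abs_nonneg _) (Finset.mem_univ j)
  have hball : ∀ x ∈ Set.Icc (0 : ℝ) ε, u + x • (Pi.single j 1 : Fin n → ℝ) ∈
      Metric.closedBall (0 : Fin n → ℝ) 2 := by
    intro x hx
    rw [mem_closedBall_zero_iff, pi_norm_le_iff_of_nonneg (by norm_num)]
    intro i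
    rw [Real.norm_eq_abs, Pi.add_apply, Pi.smul_apply, smul_eq_mul]
    refine (abs_add_le _ _).trans ?_
    have h2 := norm_le_one_of_dot hu i
    have h3 : |x * (Pi.single j 1 : Fin n → ℝ) i| ≤ 1 := by
      rw [abs_mul, abs_of_nonneg hx.1]
      have h4 : |(Pi.single j 1 : Fin n → ℝ) i| ≤ 1 := by
        by_cases hij : i = j
        · subst hij
          simp
        · simp [Pi.single_eq_of_ne hij]
      have h5 := hx.2
      have h6 := abs_nonneg ((Pi.single j 1 : Fin n → ℝ) i)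
      nlinarith [hx.1]
    linarith
  have hd1 : ∀ x ∈ Set.Icc (0 : ℝ) ε,
      |eval (u + x • Pi.single j 1) (pderiv j F) - eval u (pderiv j F)| ≤ |C j| * ε := by
    intro x hx
    have h2 := Convex.norm_image_sub_le_of_norm_hasDerivWithin_le
      (f := fun x : ℝ => eval (u + x • Pi.single j 1) (pderiv j F))
      (f' := fun x : ℝ => eval (u + x • Pi.single j 1) (pderiv j (pderiv j F)))
      (C := |C j|) (s := Set.Icc (0 : ℝ) ε) (x := 0) (y := x)
      (fun y _ => (hasDerivAt_line (pderiv j F) u j y).hasDerivWithinAt)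
      (fun y hy => (hC j _ (hball y hy)).trans (le_abs_self _)) (convex_Icc _ _)
      (Set.left_mem_Icc.2 h0) hx
    simp only [zero_smul, add_zero, sub_zero, Real.norm_eq_abs] at h2
    refine h2.trans ?_
    rw [abs_of_nonneg hx.1]
    exact mul_le_mul_of_nonneg_left hx.2 (abs_nonneg _)
  have h2 := Convex.norm_image_sub_le_of_norm_hasDerivWithin_le
    (f := fun x : ℝ => eval (u + x • Pi.single j 1) F - x * eval u (pderiv j F))
    (f' := fun x : ℝ => eval (u + x • Pi.single j 1) (pderiv j F) - 1 * eval u (pderiv j F))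
    (C := |C j| * ε) (s := Set.Icc (0 : ℝ) ε) (x := 0) (y := ε)
    (fun y _ => ((hasDerivAt_line F u j y).sub
      ((hasDerivAt_id y).mul_const (eval u (pderiv j F)))).hasDerivWithinAt)
    (fun y hy => by rw [one_mul]; exact hd1 y hy) (convex_Icc _ _)
    (Set.left_mem_Icc.2 h0) (Set.right_mem_Icc.2 h0)
  simp only [zero_smul, add_zero, sub_zero, Real.norm_eq_abs, zero_mul, abs_of_nonneg h0] at h2
  have h3 : eval (u + ε • Pi.single j 1) F - eval u F - ε * eval u (pderiv j F) =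
      eval (u + ε • Pi.single j 1) F - ε * eval u (pderiv j F) - eval u F := by ring
  rw [h3]
  refine h2.trans ?_
  nlinarith [sq_nonneg ε]

/-- the inverse form near the eigenvector -/
theorem quad_line {n : ℕ} {s : Matrix (Fin n) (Fin n) ℝ} (hs : s.PosDef) {t : ℝ} {u : Fin n → ℝ}
    (huu : u ⬝ᵥ u = 1) (hu : s⁻¹ *ᵥ u = t⁻¹ • u) (j : Fin n) (ε : ℝ) :
    (u + ε • (Pi.single j 1 : Fin n → ℝ)) ⬝ᵥ s⁻¹ *ᵥ (u + ε • (Pi.single j 1 : Fin n → ℝ)) =
      t⁻¹ + 2 * ε * t⁻¹ * u j + ε ^ 2 * s⁻¹ j j := by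
  have h1 : (Pi.single j 1 : Fin n → ℝ) ⬝ᵥ s⁻¹ *ᵥ u = t⁻¹ * u j := by
    rw [hu, dotProduct_smul, single_one_dotProduct, smul_eq_mul]
  have h2 : u ⬝ᵥ s⁻¹ *ᵥ (Pi.single j 1 : Fin n → ℝ) = t⁻¹ * u j := by
    rw [dotProduct_mulVec, ← mulVec_transpose, Pool.Agent.Y520.Mat.symd hs.inv, dotProduct_comm]
    exact h1
  have h3 := Pool.Agent.Y520.Mat.diag_eq s⁻¹ j
  rw [mulVec_add, mulVec_smul, dotProduct_add, add_dotProduct, add_dotProduct, dotProduct_smul,
    dotProduct_smul, smul_dotProduct, smul_dotProduct, h1, h2, h3, hu, dotProduct_smul, huu]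
  simp only [smul_eq_mul]
  ring

theorem bound_form {n d : ℕ} (hd : n + 1 < d) (a : Idx (n + 1) d → ℝ)
    (ha : ∀ u : Fin (n + 1) → ℝ, u ≠ 0 → ∃ j, eval u (pderiv j (toPoly a)) ≠ 0) (C : ℝ) :
    ∃ T : ℝ, ∀ s : Matrix (Fin (n + 1)) (Fin (n + 1)) ℝ, s.PosDef → s.det = 1 →
      (∀ w, form a w ^ 2 ≤ C * (w ⬝ᵥ s⁻¹ *ᵥ w) ^ d) → ∀ i j, |s i j| ≤ T ∧ |s⁻¹ i j| ≤ T := by
  set G : (Fin (n + 1) → ℝ) → ℝ := fun u => ∑ j, eval u (pderiv j (toPoly a)) ^ 2 with hG
  have hGc : Continuous G := continuous_finsetSum _ fun j _ => (continuous_eval _).pow 2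
  set S : Set (Fin (n + 1) → ℝ) := {u | u ⬝ᵥ u = 1} with hS
  have hScl : IsClosed S := isClosed_eq (by fun_prop) continuous_const
  have hSc : IsCompact S := by
    refine (isCompact_closedBall (0 : Fin (n + 1) → ℝ) 1).of_isClosed_subset hScl ?_
    intro u hu
    rw [mem_closedBall_zero_iff, pi_norm_le_iff_of_nonneg zero_le_one]
    exact fun i => norm_le_one_of_dot hu i
  have hSn : S.Nonempty := ⟨Pi.single 0 1, by simp [hS]⟩
  obtain ⟨u0, hu0, hmin⟩ := hSc.exists_isMinOn hSn hGc.continuousOn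
  set μ := G u0 with hμ
  have hμ0 : 0 < μ := by
    have h1 : u0 ≠ 0 := by
      rintro rfl
      have : (0 : Fin (n + 1) → ℝ) ⬝ᵥ 0 = 1 := hu0
      simp at this
    obtain ⟨j, hj⟩ := ha u0 h1
    exact Finset.sum_pos' (fun j _ => sq_nonneg _) ⟨j, Finset.mem_univ j, by positivity⟩
  obtain ⟨M, hM0, hM⟩ := taylor (toPoly a)
  set K : ℝ := (n.factorial : ℝ) * ((n + 1) ^ 2) ^ n with hK
  have hK0 : 0 ≤ K := by positivity
  set B : ℝ := √(|C| * (3 + K) ^ d) with hB
  have hB0 : 0 ≤ B := Real.sqrt_nonneg _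
  have hB2 : B ^ 2 = |C| * (3 + K) ^ d := Real.sq_sqrt (by positivity)
  set A : ℝ := 2 * B + M with hA
  set T0 : ℝ := (n + 1) * A ^ 2 / μ with hT0
  refine ⟨(n + 1) ^ 2 * T0 + (n.factorial : ℝ) * ((n + 1) ^ 2 * T0) ^ n, ?_⟩
  intro s hs hdet hbd
  obtain ⟨t, u, ht1, huu, hinv, he1, he2⟩ := eig hs hdet
  have ht0 : 0 < t := by linarith
  set σ : ℝ := (√t)⁻¹ with hσ
  have hst : 1 ≤ √t := Real.one_le_sqrt.2 ht1
  have hσ0 : 0 < σ := by positivity
  have hσ1 : σ ≤ 1 := inv_le_one_of_one_le₀ hst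
  have hσ2 : σ ^ 2 = t⁻¹ := by rw [hσ, inv_pow, Real.sq_sqrt ht0.le]
  set ε : ℝ := σ ^ (n + 1) with hε
  have hε0 : 0 < ε := pow_pos hσ0 _
  have hε1 : ε ≤ 1 := pow_le_one₀ hσ0.le hσ1
  have hf : ∀ w, (w ⬝ᵥ s⁻¹ *ᵥ w) ≤ (3 + K) * t⁻¹ → |form a w| ≤ B * σ ^ (n + 2) := by
    intro w hw
    have hq : 0 ≤ w ⬝ᵥ s⁻¹ *ᵥ w := by
      have := hs.inv.posSemidef.dotProduct_mulVec_nonneg w
      rwa [star_trivial] at this
    have h1 : form a w ^ 2 ≤ (B * σ ^ (n + 2)) ^ 2 := by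
      calc form a w ^ 2 ≤ C * (w ⬝ᵥ s⁻¹ *ᵥ w) ^ d := hbd w
        _ ≤ |C| * ((3 + K) * t⁻¹) ^ d := by
          apply mul_le_mul (le_abs_self C) (pow_le_pow_left₀ hq hw d) (pow_nonneg hq d) (abs_nonneg C)
        _ = B ^ 2 * (σ ^ 2) ^ d := by rw [hB2, hσ2, mul_pow]; ring
        _ ≤ B ^ 2 * (σ ^ 2) ^ (n + 2) := by
          apply mul_le_mul_of_nonneg_left _ (sq_nonneg B)
          apply pow_le_pow_of_le_one (sq_nonneg σ) _ hd
          exact pow_le_one₀ hσ0.le hσ1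
        _ = (B * σ ^ (n + 2)) ^ 2 := by ring
    exact abs_le_of_sq_le_sq h1 (by positivity)
  have hD : ∀ j, |eval u (pderiv j (toPoly a))| ≤ A * σ := by
    intro j
    have h1 : |form a (u + ε • Pi.single j 1)| ≤ B * σ ^ (n + 2) := by
      apply hf
      rw [quad_line hs huu hinv j ε]
      have h2 := norm_le_one_of_dot huu j
      have h3 := he2 j j
      have h4 : s⁻¹ j j ≤ K * t ^ n := by
        refine (le_abs_self _).trans (h3.trans (le_of_eq ?_))
        rw [hK, mul_pow]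
        ring
      have h5 : ε ^ 2 * s⁻¹ j j ≤ K * t⁻¹ := by
        calc ε ^ 2 * s⁻¹ j j ≤ ε ^ 2 * (K * t ^ n) := mul_le_mul_of_nonneg_left h4 (sq_nonneg ε)
          _ = K * ((σ ^ 2) ^ (n + 1) * t ^ n) := by rw [hε]; ring
          _ = K * t⁻¹ := by
            have h10 : (t⁻¹) ^ (n + 1) * t ^ n = t⁻¹ := by
              rw [pow_succ, mul_right_comm, ← mul_pow, inv_mul_cancel₀ ht0.ne', one_pow, one_mul]
            rw [hσ2, h10]
      have h6 : 2 * ε * t⁻¹ * u j ≤ 2 * t⁻¹ := by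
        have h7 : u j ≤ 1 := (le_abs_self _).trans h2
        have h8 : 0 < t⁻¹ := by positivity
        have h9 : ε * u j ≤ 1 := by
          calc ε * u j ≤ ε * 1 := mul_le_mul_of_nonneg_left h7 hε0.le
            _ ≤ 1 := by linarith
        nlinarith
      linarith
    have h2 : |form a u| ≤ B * σ ^ (n + 2) := by
      apply hf
      rw [hinv, dotProduct_smul, huu, smul_eq_mul, mul_one]
      have h8 : 0 < t⁻¹ := by positivity
      nlinarith
    have h3 := hM u huu j ε hε0.le hε1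
    rw [eval_toPoly, eval_toPoly] at h3
    have h4 : |ε * eval u (pderiv j (toPoly a))| ≤ 2 * (B * σ ^ (n + 2)) + M * ε ^ 2 := by
      have h5 : ε * eval u (pderiv j (toPoly a)) = form a (u + ε • Pi.single j 1) - form a u -
          (form a (u + ε • Pi.single j 1) - form a u - ε * eval u (pderiv j (toPoly a))) := by ring
      rw [h5]
      refine (abs_sub _ _).trans ?_
      have h6 := abs_sub (form a (u + ε • Pi.single j 1)) (form a u)
      linarith
    rw [abs_mul, abs_of_pos hε0] at h4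
    have h5 : 2 * (B * σ ^ (n + 2)) + M * ε ^ 2 ≤ ε * (A * σ) := by
      have h6 : ε ^ 2 ≤ ε * σ := by
        rw [sq]
        apply mul_le_mul_of_nonneg_left _ hε0.le
        calc ε = σ ^ n * σ := by rw [hε, pow_succ]
          _ ≤ 1 * σ := mul_le_mul_of_nonneg_right (pow_le_one₀ hσ0.le hσ1) hσ0.le
          _ = σ := one_mul σ
      have h7 : σ ^ (n + 2) = ε * σ := by rw [hε]; ring
      rw [h7, hA]
      nlinarith
    exact le_of_mul_le_mul_left (h4.trans h5) hε0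
  have htT : t ≤ T0 := by
    have h1 : μ ≤ (n + 1) * (A * σ) ^ 2 := by
      calc μ ≤ G u := hmin huu
        _ ≤ ∑ _j : Fin (n + 1), (A * σ) ^ 2 := by
          apply Finset.sum_le_sum
          intro j _
          rw [← sq_abs]
          exact pow_le_pow_left₀ (abs_nonneg _) (hD j) 2
        _ = (n + 1) * (A * σ) ^ 2 := by
          rw [Finset.sum_const, Finset.card_univ, Fintype.card_fin, nsmul_eq_mul]
          push_cast
          ring
    rw [mul_pow, hσ2] at h1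
    rw [hT0, le_div_iff₀ hμ0]
    calc t * μ ≤ t * ((n + 1) * (A ^ 2 * t⁻¹)) := mul_le_mul_of_nonneg_left h1 ht0.le
      _ = (n + 1) * A ^ 2 := by
        field_simp
  have hT00 : 0 ≤ T0 := ht0.le.trans htT
  intro i j
  have p1 : (0:ℝ) ≤ (n + 1) ^ 2 * T0 := mul_nonneg (by positivity) hT00
  have p2 : (0:ℝ) ≤ (n.factorial : ℝ) * ((n + 1) ^ 2 * T0) ^ n :=
    mul_nonneg (Nat.cast_nonneg _) (pow_nonneg p1 _)
  have q1 : ((n:ℝ) + 1) ^ 2 * t ≤ (n + 1) ^ 2 * T0 := mul_le_mul_of_nonneg_left htT (by positivity)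
  constructor
  · refine (he1 i j).trans ?_
    linarith
  · refine (he2 i j).trans ?_
    have q2 : (((n:ℝ) + 1) ^ 2 * t) ^ n ≤ ((n + 1) ^ 2 * T0) ^ n :=
      pow_le_pow_left₀ (mul_nonneg (by positivity) ht0.le) q1 n
    have q3 : (n.factorial : ℝ) * (((n:ℝ) + 1) ^ 2 * t) ^ n ≤
        (n.factorial : ℝ) * ((n + 1) ^ 2 * T0) ^ n :=
      mul_le_mul_of_nonneg_left q2 (Nat.cast_nonneg _)
    linarith

end Pool.Agent.V11208.VM
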