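import Mathlib

/-! Forms of degree `d` in `n` variables, and a polynomial in the coefficients which vanishes on all
the forms with a real singular point. -/

open MvPolynomial Finset

namespace Pool.Agent.V11208.VM

/-- the exponents of the monomials of degree `d` in `n` variables -/
abbrev Idx (n d : ℕ) : Type := {k : Fin n → ℕ // k ∈ Finset.piAntidiag (Finset.univ : Finset (Fin n)) d}

/-- the form with coefficients `a` -/
noncomputable def form {n d : ℕ} (a : Idx n d → ℝ) (v : Fin n → ℝ) : ℝ :=
  ∑ k, a k * ∏ i, v i ^ k.1 i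

/-- the form as a polynomial -/
noncomputable def toPoly {n d : ℕ} (a : Idx n d → ℝ) : MvPolynomial (Fin n) ℝ :=
  ∑ k, monomial (Finsupp.equivFunOnFinite.symm k.1) (a k)

theorem Idx.sum_eq {n d : ℕ} (k : Idx n d) : ∑ i, k.1 i = d := (mem_piAntidiag.1 k.2).1

theorem eval_toPoly {n d : ℕ} (a : Idx n d → ℝ) (v : Fin n → ℝ) :
    eval v (toPoly a) = form a v := by
  unfold toPoly form
  rw [map_sum]
  refine Finset.sum_congr rfl fun k _ => ?_
  rw [eval_monomial, Finsupp.prod_fintype _ _ (fun i => by simp)]
  simp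

theorem toPoly_homogeneous {n d : ℕ} (a : Idx n d → ℝ) : (toPoly a).IsHomogeneous d := by
  unfold toPoly
  apply IsHomogeneous.sum
  intro k _
  apply isHomogeneous_monomial
  rw [Finsupp.degree_eq_sum]
  simpa using k.sum_eq

theorem eq_toPoly {n d : ℕ} {F : MvPolynomial (Fin n) ℝ} (hF : F.IsHomogeneous d) :
    F = toPoly (d := d) fun k => F.coeff (Finsupp.equivFunOnFinite.symm k.1) := by
  classical
  ext m
  unfold toPoly
  rw [coeff_sum]
  simp only [coeff_monomial]
  by_cases hm : ∑ i, m i = d
  · have hmem : (m : Fin n → ℕ) ∈ Finset.piAntidiag (Finset.univ : Finset (Fin n)) d := by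
      rw [mem_piAntidiag]
      exact ⟨hm, fun i _ => Finset.mem_univ i⟩
    rw [Finset.sum_eq_single (⟨m, hmem⟩ : Idx n d)]
    · simp
    · intro k _ hk
      rw [if_neg]
      intro h
      apply hk
      apply Subtype.ext
      have h2 := congrArg (fun f : Fin n →₀ ℕ => (f : Fin n → ℕ)) h
      simpa using h2
    · intro h
      exact absurd (Finset.mem_univ _) h
  · rw [Finset.sum_eq_zero]
    · apply hF.coeff_eq_zero
      rw [Finsupp.degree_eq_sum]
      exact hm
    · intro k _
      rw [if_neg]
      intro h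
      apply hm
      rw [← h]
      simpa using k.sum_eq

theorem hasFDerivAt_eval {n : ℕ} (F : MvPolynomial (Fin n) ℝ) (v : Fin n → ℝ) :
    HasFDerivAt (fun v => eval v F)
      (∑ j, eval v (pderiv j F) • (ContinuousLinearMap.proj j : (Fin n → ℝ) →L[ℝ] ℝ)) v := by
  induction F using MvPolynomial.induction_on with
  | C a =>
    simp only [eval_C, pderiv_C, map_zero, zero_smul, Finset.sum_const_zero]
    exact hasFDerivAt_const a v
  | add p q hp hq =>
    simp only [map_add, add_smul, Finset.sum_add_distrib]
    exact hp.add hq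
  | mul_X p i hp =>
    have h1 : HasFDerivAt (fun v : Fin n → ℝ => v i)
        (ContinuousLinearMap.proj i : (Fin n → ℝ) →L[ℝ] ℝ) v := hasFDerivAt_apply i v
    have h2 := hp.mul h1
    have h3 : (fun v : Fin n → ℝ => eval v (p * X i)) = (fun v => eval v p) * fun v => v i := by
      ext w
      simp
    rw [h3]
    refine h2.congr_fderiv ?_
    refine ContinuousLinearMap.ext fun w => ?_
    simp only [ContinuousLinearMap.coe_sum', ContinuousLinearMap.coe_smul', Finset.sum_apply,
      Pi.smul_apply, ContinuousLinearMap.proj_apply, smul_eq_mul, ContinuousLinearMap.add_apply,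
      Derivation.leibniz, pderiv_X, map_add, map_mul, eval_X, smul_eq_mul]
    have h4 : ∀ j : Fin n, (eval v p * eval v (Pi.single (M := fun _ => MvPolynomial (Fin n) ℝ) j 1 i) +
        v i * eval v (pderiv j p)) * w j =
        (if j = i then eval v p * w i else 0) + v i * (eval v (pderiv j p) * w j) := by
      intro j
      by_cases hj : j = i
      · subst hj
        simp
        ring
      · simp [Pi.single_eq_of_ne (Ne.symm hj), hj]
        ring
    rw [Finset.sum_congr rfl fun j _ => h4 j, Finset.sum_add_distrib, Finset.mul_sum,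
      Finset.sum_ite_eq' Finset.univ i]
    simp

/-- algebraic dependence: more polynomials than variables -/
theorem exists_relation {κ σ : Type} [Fintype κ] [Fintype σ]
    (h : Fintype.card σ < Fintype.card κ) (P : κ → MvPolynomial σ ℝ) :
    ∃ F : MvPolynomial κ ℝ, F ≠ 0 ∧ ∀ p : σ → ℝ, eval (fun k => eval p (P k)) F = 0 := by
  by_contra hno
  push Not at hno
  have hind : AlgebraicIndependent ℝ P := by
    rw [algebraicIndependent_iff]
    intro F hF
    by_contra hF0
    obtain ⟨p, hp⟩ := hno F hF0
    apply hp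
    have h1 : eval p (aeval P F) = eval (fun k => eval p (P k)) F := by
      have h2 : (aeval (fun k => eval p (P k)) : MvPolynomial κ ℝ →ₐ[ℝ] ℝ) =
          (aeval p : MvPolynomial σ ℝ →ₐ[ℝ] ℝ).comp (aeval P) := by
        apply MvPolynomial.algHom_ext
        intro i
        simp [coe_aeval_eq_eval]
      have h3 := congrArg (fun f => f F) h2
      simpa [coe_aeval_eq_eval] using h3.symm
    rw [← h1, hF, map_zero]
  have h1 := hind.cardinalMk_le_trdeg
  rw [MvPolynomial.trdeg_of_isDomain] at h1
  simp only [Cardinal.mk_fintype, Cardinal.lift_natCast, Nat.cast_le, Cardinal.lift_id] at h1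
  omega

/-- the exponent `(d - 1) e_i + e_l` -/
def kk {n d : ℕ} (hd : 0 < d) (i l : Fin n) : Idx n d :=
  ⟨fun j => (if j = i then d - 1 else 0) + (if j = l then 1 else 0), by
    rw [mem_piAntidiag]
    refine ⟨?_, fun j _ => Finset.mem_univ j⟩
    show ∑ j, ((if j = i then d - 1 else 0) + (if j = l then 1 else 0)) = d
    rw [Finset.sum_add_distrib]
    simp only [Finset.sum_ite_eq', Finset.mem_univ, if_true]
    omega⟩

theorem kk_apply {n d : ℕ} (hd : 0 < d) (i l j : Fin n) :
    (kk hd i l).1 j = (if j = i then d - 1 else 0) + (if j = l then 1 else 0) := rfl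

theorem kk_inj {n d : ℕ} (hd : 0 < d) (i : Fin n) : Function.Injective (kk hd i) := by
  intro l l' h
  by_contra hne
  have h1 := congrArg (fun k : Idx n d => k.1 l) h
  simp only [kk_apply, if_true, if_neg hne] at h1
  omega

theorem eval_pderiv_single {n d : ℕ} (b : Idx n d → ℝ) (hd : 0 < d) (i l : Fin n) :
    eval (Pi.single i 1) (pderiv l (toPoly b)) = b (kk hd i l) * (kk hd i l).1 l := by
  unfold toPoly
  rw [map_sum, map_sum, Finset.sum_eq_single (kk hd i l)]
  · rw [pderiv_monomial, eval_monomial, Finsupp.prod_fintype _ _ (fun i => by simp),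
      Finset.prod_eq_one, mul_one]
    · simp
    · intro j _
      by_cases hj : j = i
      · subst hj
        simp
      · have h1 : ((Finsupp.equivFunOnFinite.symm (kk hd i l).1 : Fin n →₀ ℕ) -
            (Finsupp.single l 1 : Fin n →₀ ℕ)) j = 0 := by
          rw [Finsupp.tsub_apply]
          simp only [Finsupp.equivFunOnFinite_symm_apply_apply, kk_apply, if_neg hj, zero_add,
            Finsupp.single_apply]
          by_cases hjl : j = l
          · simp [hjl]
          · simp [hjl]
        rw [h1, pow_zero]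
  · intro k _ hk
    rw [pderiv_monomial, eval_monomial, Finsupp.prod_fintype _ _ (fun i => by simp)]
    by_cases hkl : k.1 l = 0
    · simp [hkl]
    · obtain ⟨j, hji, hj⟩ : ∃ j, j ≠ i ∧
          ((Finsupp.equivFunOnFinite.symm k.1 : Fin n →₀ ℕ) -
            (Finsupp.single l 1 : Fin n →₀ ℕ)) j ≠ 0 := by
        by_contra hno
        push Not at hno
        apply hk
        have h2 : ∀ j, j ≠ i → k.1 j = (kk hd i l).1 j := by
          intro j hj
          have h1 := hno j hj
          rw [Finsupp.tsub_apply] at h1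
          simp only [Finsupp.equivFunOnFinite_symm_apply_apply, Finsupp.single_apply] at h1
          rw [kk_apply, if_neg hj]
          by_cases hjl : j = l
          · subst hjl
            simp only [if_true] at h1 ⊢
            omega
          · rw [if_neg (Ne.symm hjl)] at h1
            rw [if_neg hjl]
            omega
        have h3 := k.sum_eq
        have h4 := (kk hd i l).sum_eq
        rw [← Finset.add_sum_erase _ _ (Finset.mem_univ i)] at h3 h4
        have h5 : ∑ j ∈ Finset.univ.erase i, k.1 j = ∑ j ∈ Finset.univ.erase i, (kk hd i l).1 j :=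
          Finset.sum_congr rfl fun j hj => h2 j (Finset.ne_of_mem_erase hj)
        apply Subtype.ext
        funext j
        by_cases hj : j = i
        · subst hj
          omega
        · exact h2 j hj
      rw [Finset.prod_eq_zero (Finset.mem_univ j), mul_zero]
      rw [Pi.single_eq_of_ne hji, zero_pow hj]
  · intro h
    exact absurd (Finset.mem_univ _) h

/-- parameters for the forms with a singular point outside a coordinate hyperplane -/
abbrev Par (n d : ℕ) (hd : 0 < d) (i : Fin n) : Type :=
  {j : Fin n // j ≠ i} ⊕ {k : Idx n d // ¬ k ∈ Set.range (kk hd i)}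

open Classical in
theorem card_par {n d : ℕ} (hd : 0 < d) (i : Fin n) :
    Fintype.card (Par n d hd i) < Fintype.card (Idx n d) := by
  have hn : 0 < n := i.pos
  have h1 : Fintype.card {j : Fin n // j ≠ i} = n - 1 := by
    simp
  have h2 : Fintype.card {k : Idx n d // ¬ k ∈ Set.range (kk hd i)} =
      Fintype.card (Idx n d) - n := by
    rw [Fintype.card_subtype_compl]
    congr 1
    have := Set.card_range_of_injective (kk_inj hd i)
    rw [Fintype.card_fin] at this
    exact this
  have h3 : n ≤ Fintype.card (Idx n d) := by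
    have := Fintype.card_le_of_injective _ (kk_inj hd i)
    rwa [Fintype.card_fin] at this
  rw [Fintype.card_sum, h1, h2]
  omega

open Classical in
/-- the universal form with a singular point outside a coordinate hyperplane -/
noncomputable def Phi {n d : ℕ} (hd : 0 < d) (i : Fin n) :
    MvPolynomial (Fin n) (MvPolynomial (Par n d hd i) ℝ) :=
  ∑ k : {k : Idx n d // ¬ k ∈ Set.range (kk hd i)}, C (X (Sum.inr k)) *
    ∏ j, (if h : j = i then X i else X j - C (X (Sum.inl ⟨j, h⟩)) * X i) ^ k.1.1 j

/-- linear forms -/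
noncomputable def lin {n : ℕ} (t : Fin n → ℝ) (i j : Fin n) : MvPolynomial (Fin n) ℝ :=
  if j = i then X i else X j - C (t j) * X i

open Classical in
theorem map_Phi {n d : ℕ} (hd : 0 < d) (i : Fin n) (t : Fin n → ℝ)
    (y : {k : Idx n d // ¬ k ∈ Set.range (kk hd i)} → ℝ) :
    MvPolynomial.map (eval (Sum.elim (fun j : {j : Fin n // j ≠ i} => t j.1) y)) (Phi hd i) =
      ∑ k, C (y k) * ∏ j, lin t i j ^ k.1.1 j := by
  unfold Phi
  rw [map_sum]
  refine Finset.sum_congr rfl fun k _ => ?_
  rw [map_mul, map_C, eval_X, map_prod]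
  congr 1
  refine Finset.prod_congr rfl fun j _ => ?_
  rw [map_pow]
  congr 1
  unfold lin
  by_cases hj : j = i
  · rw [dif_pos hj, if_pos hj, map_X]
  · rw [dif_neg hj, if_neg hj, map_sub, map_mul, map_X, map_X, map_C, eval_X]
    rfl

open Classical in
theorem exists_disc_chart {n d : ℕ} (hd : 0 < d) (i : Fin n) :
    ∃ F : MvPolynomial (Idx n d) ℝ, F ≠ 0 ∧ ∀ a : Idx n d → ℝ,
      (∃ u : Fin n → ℝ, u i ≠ 0 ∧ ∀ j, eval u (pderiv j (toPoly a)) = 0) → eval a F = 0 := by
  obtain ⟨F, hF, hF0⟩ := exists_relation (card_par hd i)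
    (fun k => coeff (Finsupp.equivFunOnFinite.symm k.1) (Phi hd i))
  refine ⟨F, hF, ?_⟩
  rintro a ⟨u, hu, hg⟩
  set gS : MvPolynomial (Fin n) ℝ →ₐ[ℝ] MvPolynomial (Fin n) ℝ :=
    aeval (fun j => if j = i then C (u i) * X i else X j + C (u j) * X i) with hgS
  set t : Fin n → ℝ := fun j => u j / u i with ht
  set c : Fin n → ℝ := fun j => if j = i then (u i)⁻¹ else 1 with hc
  set gI : MvPolynomial (Fin n) ℝ →ₐ[ℝ] MvPolynomial (Fin n) ℝ :=
    aeval (fun j => C (c j) * lin t i j) with hgI
  have hcomp : ∀ G, gI (gS G) = G := by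
    intro G
    have h1 : gI.comp gS = AlgHom.id ℝ _ := by
      apply MvPolynomial.algHom_ext
      intro j
      rw [AlgHom.comp_apply, AlgHom.id_apply, hgS, aeval_X]
      by_cases hj : j = i
      · subst hj
        rw [if_pos rfl, map_mul, hgI, aeval_X, algHom_C]
        simp only [hc, lin, if_true]
        rw [← mul_assoc]
        show C (u j) * C (u j)⁻¹ * X j = X j
        rw [← C_mul, mul_inv_cancel₀ hu, C_1, one_mul]
      · rw [if_neg hj, map_add, map_mul, hgI, aeval_X, aeval_X, algHom_C]
        simp only [hc, lin, if_true, if_neg hj, ht]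
        show C 1 * (X j - C (u j / u i) * X i) + C (u j) * (C (u i)⁻¹ * X i) = X j
        rw [C_1, one_mul, ← mul_assoc, ← C_mul, ← div_eq_mul_inv]
        ring
    have h2 := congrArg (fun f => f G) h1
    simpa using h2
  set Fb := gS (toPoly a) with hFbdef
  have hhom : Fb.IsHomogeneous d := by
    have h1 := (toPoly_homogeneous a).aeval (n := 1)
      (fun j => if j = i then C (u i) * X i else X j + C (u j) * X i) (fun j => by
        by_cases hj : j = i
        · simp only [if_pos hj]
          exact (isHomogeneous_X _ _).C_mul _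
        · simp only [if_neg hj]
          exact (isHomogeneous_X _ _).add ((isHomogeneous_X _ _).C_mul _))
    rwa [one_mul] at h1
  set b : Idx n d → ℝ := fun k => Fb.coeff (Finsupp.equivFunOnFinite.symm k.1) with hb
  have hFb : Fb = toPoly b := eq_toPoly hhom
  have hgrad : ∀ l, eval (Pi.single i 1) (pderiv l Fb) = 0 := by
    set g : (Fin n → ℝ) →L[ℝ] (Fin n → ℝ) := ContinuousLinearMap.pi fun j =>
      if j = i then u i • (ContinuousLinearMap.proj i : (Fin n → ℝ) →L[ℝ] ℝ)
      else (ContinuousLinearMap.proj j : (Fin n → ℝ) →L[ℝ] ℝ) +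
        u j • (ContinuousLinearMap.proj i : (Fin n → ℝ) →L[ℝ] ℝ) with hgdef
    have hgu : g (Pi.single i 1) = u := by
      ext j
      by_cases hj : j = i
      · subst hj
        simp [hgdef]
      · simp [hgdef, hj, Pi.single_eq_of_ne hj]
    have hev : ∀ v, eval v Fb = eval (g v) (toPoly a) := by
      intro v
      have h1 : (aeval v : MvPolynomial (Fin n) ℝ →ₐ[ℝ] ℝ).comp gS = aeval (g v) := by
        apply MvPolynomial.algHom_ext
        intro j
        rw [AlgHom.comp_apply, hgS, aeval_X, aeval_X]
        by_cases hj : j = i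
        · subst hj
          simp [hgdef, coe_aeval_eq_eval]
        · simp [hgdef, hj, coe_aeval_eq_eval]
      have h2 := congrArg (fun f => f (toPoly a)) h1
      simpa [coe_aeval_eq_eval] using h2
    have h1 := hasFDerivAt_eval (toPoly a) u
    simp only [hg, zero_smul, Finset.sum_const_zero] at h1
    have h2 : HasFDerivAt (fun v => eval v Fb) ((0 : (Fin n → ℝ) →L[ℝ] ℝ).comp g)
        (Pi.single i 1) := by
      have h3 : (fun v => eval v Fb) = (fun v => eval v (toPoly a)) ∘ g := funext hev
      rw [h3]
      apply HasFDerivAt.comp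
      · rw [hgu]
        exact h1
      · exact g.hasFDerivAt
    have h3 := (hasFDerivAt_eval Fb (Pi.single i 1)).unique h2
    intro l
    have h4 := congrArg (fun f : (Fin n → ℝ) →L[ℝ] ℝ => f (Pi.single l 1)) h3
    simpa [Pi.single_apply] using h4
  have hbz : ∀ k ∈ Set.range (kk hd i), b k = 0 := by
    rintro _ ⟨l, rfl⟩
    have h1 := hgrad l
    rw [hFb, eval_pderiv_single b hd i l] at h1
    rcases mul_eq_zero.1 h1 with h | h
    · exact h
    · exfalso
      rw [kk_apply, if_pos (rfl : l = l)] at h
      have : (0 : ℝ) < (((if l = i then d - 1 else 0) + 1 : ℕ) : ℝ) := by positivity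
      linarith
  have ha : toPoly a = ∑ k : {k : Idx n d // ¬ k ∈ Set.range (kk hd i)},
      C (b k.1 * ∏ j, c j ^ k.1.1 j) * ∏ j, lin t i j ^ k.1.1 j := by
    have h1 : toPoly a = ∑ k : Idx n d,
        C (b k * ∏ j, c j ^ k.1 j) * ∏ j, lin t i j ^ k.1 j := by
      rw [← hcomp (toPoly a), ← hFbdef, hFb]
      conv_lhs => unfold toPoly
      rw [map_sum]
      refine Finset.sum_congr rfl fun k _ => ?_
      rw [hgI, aeval_monomial, Finsupp.prod_fintype _ _ (fun i => by simp), C_mul, map_prod]
      simp only [mul_pow, Finset.prod_mul_distrib, C_pow, map_pow]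
      rw [mul_assoc]
      rfl
    rw [h1, ← Fintype.sum_subtype_add_sum_subtype (fun k => k ∈ Set.range (kk hd i)),
      Finset.sum_eq_zero, zero_add]
    rintro ⟨k, hk⟩ _
    rw [hbz k hk, zero_mul, C_0, zero_mul]
  have h5 := map_Phi hd i t (fun k => b k.1 * ∏ j, c j ^ k.1.1 j)
  rw [← ha] at h5
  have h6 : a = fun k : Idx n d => eval (Sum.elim (fun j : {j : Fin n // j ≠ i} => t j.1)
      (fun k : {k : Idx n d // ¬ k ∈ Set.range (kk hd i)} => b k.1 * ∏ j, c j ^ k.1.1 j))
      (coeff (Finsupp.equivFunOnFinite.symm k.1) (Phi hd i)) := by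
    funext k
    rw [← coeff_map, h5]
    unfold toPoly
    rw [coeff_sum, Finset.sum_eq_single k]
    · simp
    · intro k' _ hk'
      rw [coeff_monomial, if_neg]
      intro h
      apply hk'
      apply Subtype.ext
      have h7 := congrArg (fun f : Fin n →₀ ℕ => (f : Fin n → ℕ)) h
      simpa using h7
    · intro h
      exact absurd (Finset.mem_univ _) h
  rw [h6]
  exact hF0 _

/-- there is a nonzero polynomial in the coefficients which vanishes on all forms with a real
singular point -/
theorem exists_disc {n d : ℕ} (hd : 0 < d) :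
    ∃ F : MvPolynomial (Idx n d) ℝ, F ≠ 0 ∧ ∀ a : Idx n d → ℝ,
      (∃ u : Fin n → ℝ, u ≠ 0 ∧ ∀ j, eval u (pderiv j (toPoly a)) = 0) → eval a F = 0 := by
  choose F hF hF0 using fun i : Fin n => exists_disc_chart (n := n) (d := d) hd i
  refine ⟨∏ i, F i, Finset.prod_ne_zero_iff.2 fun i _ => hF i, ?_⟩
  rintro a ⟨u, hu, hg⟩
  obtain ⟨i, hi⟩ : ∃ i, u i ≠ 0 := by
    by_contra hno
    push Not at hno
    exact hu (funext hno)
  rw [map_prod]
  exact Finset.prod_eq_zero (Finset.mem_univ i) (hF0 i a ⟨u, hi, hg⟩)

end Pool.Agent.V11208.VM
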