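import Pool.Agent.V11208.VM.B2

/-! Multiplicative functions of square matrices, and the determinant of the representation. -/

open Finset Matrix Filter Topology

namespace Pool.Agent.V11208.VM

open Pool.Agent.Y520.Mat Pool.Agent.Y520.SStmt

/-- A multiplicative function of square matrices is `1` on the positive definite matrices of
determinant one. -/
theorem hom_eq_one {k : ℕ} (f : Matrix (Fin k) (Fin k) ℝ →* ℝ) {A : Matrix (Fin k) (Fin k) ℝ}
    (hA : A.PosDef) (hdet : A.det = 1) : f A = 1 := by
  classical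
  rcases Nat.eq_zero_or_pos k with hk | hk
  · subst hk
    have h1 : A = 1 := Subsingleton.elim _ _
    rw [h1, map_one]
  obtain ⟨k, rfl⟩ : ∃ l, k = l + 1 := ⟨k - 1, by omega⟩
  set x : Fin (k + 1) → ℝ := hA.1.eigenvalues with hx
  have hpos : ∀ j, 0 < x j := hA.eigenvalues_pos
  have hprod : ∏ i, x i = 1 := by
    have h1 := hA.1.det_eq_prod_eigenvalues
    rw [hdet] at h1
    simpa using h1.symm
  set U : Matrix (Fin (k + 1)) (Fin (k + 1)) ℝ := (hA.1.eigenvectorUnitary).1 with hU
  have hUU : U * star U = 1 := by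
    rw [hU]
    exact Unitary.coe_mul_star_self _
  have hspec : A = U * diagonal x * star U := by
    have h1 := hA.1.spectral_theorem
    rw [Unitary.conjStarAlgAut_apply] at h1
    exact h1
  have hfA : f A = f (diagonal x) := by
    have h1 : f U * f (star U) = 1 := by rw [← map_mul, hUU, map_one]
    rw [hspec, map_mul, map_mul]
    calc f U * f (diagonal x) * f (star U) = f (diagonal x) * (f U * f (star U)) := by ring
      _ = f (diagonal x) := by rw [h1, mul_one]
  -- permutations
  have hperm : ∀ (π : Equiv.Perm (Fin (k + 1))) (y : Fin (k + 1) → ℝ),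
      f (diagonal (fun i => y (π i))) = f (diagonal y) := by
    intro π y
    set Q : Matrix (Fin (k + 1)) (Fin (k + 1)) ℝ := Matrix.of fun i j => if π i = j then 1 else 0
      with hQ
    have h1 : Q * diagonal y = diagonal (fun i => y (π i)) * Q := by
      ext i j
      rw [mul_diagonal, diagonal_mul]
      simp only [hQ, Matrix.of_apply]
      split_ifs with h
      · rw [← h]
        ring
      · simp
    have h2 : Q * Qᵀ = 1 := by
      ext i j
      rw [Matrix.mul_apply, Matrix.one_apply]
      simp only [hQ, Matrix.of_apply, Matrix.transpose_apply]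
      simp [Finset.sum_ite_eq, eq_comm]
    have h3 : f Q * f Qᵀ = 1 := by rw [← map_mul, h2, map_one]
    have h4 : f Q ≠ 0 := left_ne_zero_of_mul_eq_one h3
    have h5 := congrArg f h1
    rw [map_mul, map_mul, mul_comm] at h5
    exact (mul_right_cancel₀ h4 h5).symm
  set F : (Fin (k + 1) → ℝ) →* ℝ :=
    f.comp (Matrix.diagonalRingHom (Fin (k + 1)) ℝ : (Fin (k + 1) → ℝ) →* Matrix (Fin (k + 1)) (Fin (k + 1)) ℝ) with hF
  have hFd : ∀ y, F y = f (diagonal y) := fun y => rfl
  have h1 : F x ^ (k + 1) = 1 := by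
    have h2 : ∏ j : Fin (k + 1), F (fun i => x (j + i)) = F x ^ (k + 1) := by
      have h3 : ∀ j : Fin (k + 1), F (fun i => x (j + i)) = F x := fun j =>
        hperm (Equiv.addLeft j) x
      rw [Finset.prod_congr rfl fun j _ => h3 j, Finset.prod_const, Finset.card_univ,
        Fintype.card_fin]
    rw [← h2, ← map_prod]
    have h4 : (∏ j : Fin (k + 1), fun i => x (j + i)) = 1 := by
      funext i
      rw [Finset.prod_apply, Pi.one_apply, ← hprod]
      exact Equiv.prod_comp (Equiv.addRight i) x
    rw [h4, map_one]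
  have h5 : 0 ≤ F x := by
    have h6 : x = (fun i => Real.sqrt (x i)) * fun i => Real.sqrt (x i) := by
      funext i
      exact (Real.mul_self_sqrt (hpos i).le).symm
    rw [h6, map_mul]
    exact mul_self_nonneg _
  rw [hfA, ← hFd]
  exact (pow_eq_one_iff_of_nonneg h5 (Nat.succ_ne_zero k)).1 h1

variable {ι : Type} [Fintype ι] {n d : ι → ℕ} {m : ℕ}
  {cc : ∀ i, (Fin (n i) → ℝ) → (Fin m → ℝ)} {N : Mt m}

/-- a multiplicative function on families -/
theorem hom_family (χ : Gm n →* ℝ) {s : Gm n} (hs : ∀ i, (s i).PosDef) (hdet : ∀ i, (s i).det = 1) :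
    χ s = 1 := by
  classical
  have h1 : ∀ i, χ (Function.update (fun _ => 1) i (s i)) = 1 := by
    intro i
    set f : Matrix (Fin (n i)) (Fin (n i)) ℝ →* ℝ :=
      χ.comp (MonoidHom.mulSingle (fun i => Matrix (Fin (n i)) (Fin (n i)) ℝ) i) with hf
    have h2 : f (s i) = 1 := hom_eq_one f (hs i) (hdet i)
    exact h2
  have h2 : ∀ S : Finset ι, χ (fun i => if i ∈ S then s i else 1) = 1 := by
    intro S
    induction S using Finset.induction_on with
    | empty =>
      have : (fun i => if i ∈ (∅ : Finset ι) then s i else 1) = (1 : Gm n) := by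
        funext i
        simp
      rw [this, map_one]
    | insert j S hj ih =>
      have : (fun i => if i ∈ insert j S then s i else 1) =
          (Function.update (fun _ => 1) j (s j) : Gm n) * (fun i => if i ∈ S then s i else 1) := by
        funext i
        rw [Pi.mul_apply]
        by_cases hij : i = j
        · subst hij
          simp [hj]
        · rw [Function.update_of_ne hij, one_mul]
          simp [hij]
      rw [this, map_mul, h1, ih, one_mul]
  have h3 := h2 Finset.univ
  simpa using h3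

namespace Ker

variable (h : Ker n d m cc N)
include h

omit [Fintype ι] in
theorem cc_ne {i : ι} {v : Fin (n i) → ℝ} (hv : v ≠ 0) : cc i v ≠ 0 := by
  intro h0
  have h1 := h.k1 i v v
  rw [h0, zero_dotProduct] at h1
  have h2 : v ⬝ᵥ v ≠ 0 := fun h => hv (dotProduct_self_eq_zero.1 h)
  exact pow_ne_zero _ h2 h1.symm

omit [Fintype ι] in
theorem cc_smul (i : ι) (t : ℝ) (v : Fin (n i) → ℝ) : cc i (t • v) = t ^ d i • cc i v := by
  have h1 : N *ᵥ cc i (t • v) = N *ᵥ (t ^ d i • cc i v) := by
    apply h.ext2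
    intro j w
    rw [mulVec_smul, dotProduct_smul]
    by_cases hij : j = i
    · subst hij
      rw [h.k1, h.k1, dotProduct_smul, smul_eq_mul, smul_eq_mul, mul_pow]
    · rw [h.k2 j i hij, h.k2 j i hij, smul_zero]
  have h2 := congrArg (fun y => N⁻¹ *ᵥ y) h1
  simpa only [mulVec_mulVec, inv_mul h.pos, one_mulVec] using h2

variable {ρ : Gm n → Mt m} (hρ : ∀ g i v, ρ g *ᵥ cc i v = cc i (g i *ᵥ v))
include hρ

omit [Fintype ι] in
/-- the determinant of scalar families -/
theorem det_scalar (hn : ∀ i, 0 < n i) : ∃ ω : Fin m → ι, Function.Surjective ω ∧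
    ∀ c : ι → ℝ, (ρ fun i => c i • (1 : Matrix (Fin (n i)) (Fin (n i)) ℝ)).det =
      ∏ p, c (ω p) ^ d (ω p) := by
  obtain ⟨ω, hω⟩ := h.exists_pts
  set W : Mt m := Matrix.of fun r p => cc (ω p).1 (ω p).2 r with hW
  refine ⟨fun p => (ω p).1, ?_, ?_⟩
  · intro i
    by_contra hno
    push Not at hno
    have : NeZero (n i) := ⟨(hn i).ne'⟩
    have hv : (Pi.single 0 1 : Fin (n i) → ℝ) ≠ 0 := by
      intro h0
      have := congrFun h0 0
      simp at this
    set v : Fin (n i) → ℝ := Pi.single 0 1
    set x := W⁻¹ *ᵥ cc i v with hx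
    have hWx : W *ᵥ x = cc i v := by
      rw [hx, mulVec_mulVec, mul_nonsing_inv _ hω, one_mulVec]
    have h4 : W *ᵥ x = ∑ q, x q • cc (ω q).1 (ω q).2 := by
      ext r
      rw [Finset.sum_apply]
      show ∑ q, W r q * x q = _
      exact Finset.sum_congr rfl fun q _ => mul_comm _ _
    have h5 : cc i v ⬝ᵥ N *ᵥ cc i v = 0 := by
      conv_lhs => rw [← hWx, h4]
      rw [sum_dotProduct]
      apply Finset.sum_eq_zero
      intro q _
      rw [smul_dotProduct, ← h4, hWx, h.k2 _ _ (hno q), smul_zero]
    rw [h.k1] at h5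
    have h6 : v ⬝ᵥ v ≠ 0 := fun h => hv (dotProduct_self_eq_zero.1 h)
    exact pow_ne_zero _ h6 h5
  · intro c
    have h1 : (ρ fun i => c i • (1 : Matrix (Fin (n i)) (Fin (n i)) ℝ)) * W =
        W * diagonal (fun p => c (ω p).1 ^ d (ω p).1) := by
      ext r p
      rw [mul_diagonal]
      have h2 := congrFun (hρ (fun i => c i • (1 : Matrix (Fin (n i)) (Fin (n i)) ℝ))
        (ω p).1 (ω p).2) r
      rw [smul_mulVec, one_mulVec, h.cc_smul] at h2
      rw [Matrix.mul_apply]
      refine Eq.trans h2 ?_
      rw [Pi.smul_apply, smul_eq_mul, mul_comm]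
      rfl
    have h2 := congrArg det h1
    rw [det_mul, det_mul, det_diagonal, mul_comm] at h2
    exact hω.mul_left_cancel h2

/-- the determinant -/
theorem det_rho (hn : ∀ i, 0 < n i) : ∃ ω : Fin m → ι, Function.Surjective ω ∧
    ∀ (c : ι → ℝ) (s : Gm n), (∀ i, (s i).PosDef) → (∀ i, (s i).det = 1) →
      (ρ fun i => c i • s i).det = ∏ p, c (ω p) ^ d (ω p) := by
  obtain ⟨ω, h1, h2⟩ := h.det_scalar hρ hn
  refine ⟨ω, h1, fun c s hs hdet => ?_⟩
  set χ : Gm n →* ℝ :=
    { toFun := fun g => (ρ g).det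
      map_one' := by
        have := h.rho_one hρ
        show (ρ (1 : Gm n)).det = 1
        have h3 : (1 : Gm n) = fun _ => 1 := rfl
        rw [h3, this, det_one]
      map_mul' := fun g g' => by
        show (ρ (g * g')).det = (ρ g).det * (ρ g').det
        have h3 : g * g' = fun i => g i * g' i := rfl
        rw [h3, h.rho_mul hρ, det_mul] } with hχ
  have h3 : χ s = 1 := hom_family χ hs hdet
  have h4 : (fun i => c i • s i) =
      fun i => (c i • (1 : Matrix (Fin (n i)) (Fin (n i)) ℝ)) * s i := by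
    funext i
    rw [smul_mul, Matrix.one_mul]
  rw [h4, h.rho_mul hρ, det_mul, h2]
  have h5 : (ρ s).det = 1 := h3
  rw [h5, mul_one]

end Ker

end Pool.Agent.V11208.VM
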